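import Mathlib

/-!
Reflection groups of hyperbolic space, arithmetic groups, lattices: definitions.
-/

set_option autoImplicit false

namespace Pool.Agent.RFL

open Matrix

variable {n : ℕ}

/-- The real Gram matrix of an integral one. -/
def toR (G : Matrix (Fin n) (Fin n) ℤ) : Matrix (Fin n) (Fin n) ℝ := G.map (Int.cast : ℤ → ℝ)

/-- The bilinear form with Gram matrix `B`. -/
def bl (B : Matrix (Fin n) (Fin n) ℝ) (x y : Fin n → ℝ) : ℝ := x ⬝ᵥ (B *ᵥ y)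

/-- `g` is the reflection in the hyperplane orthogonal to the vector `v` of positive norm. -/
def IsRefl (B : Matrix (Fin n) (Fin n) ℝ) (g : GL (Fin n) ℝ) (v : Fin n → ℝ) : Prop :=
  0 < bl B v v ∧ ∀ x : Fin n → ℝ, g.val *ᵥ x = x - (2 * bl B v x / bl B v v) • v

/-- The orthogonal group of the real form with Gram matrix `B`. -/
def OR (B : Matrix (Fin n) (Fin n) ℝ) : Subgroup (GL (Fin n) ℝ) where
  carrier := {g | g.valᵀ * B * g.val = B}
  mul_mem' := by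
    intro a b ha hb
    simp only [Set.mem_setOf_eq, Units.val_mul, transpose_mul] at *
    calc b.valᵀ * a.valᵀ * B * (a.val * b.val) = b.valᵀ * (a.valᵀ * B * a.val) * b.val := by
          simp only [Matrix.mul_assoc]
      _ = B := by rw [ha, hb]
  one_mem' := by simp
  inv_mem' := by
    intro a ha
    simp only [Set.mem_setOf_eq] at *
    have h1 : a.val * a⁻¹.val = 1 := by rw [← Units.val_mul, mul_inv_cancel, Units.val_one]
    have h2 : a⁻¹.valᵀ * a.valᵀ = 1 := by rw [← transpose_mul, h1, transpose_one]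
    calc a⁻¹.valᵀ * B * a⁻¹.val = a⁻¹.valᵀ * (a.valᵀ * B * a.val) * a⁻¹.val := by rw [ha]
      _ = (a⁻¹.valᵀ * a.valᵀ) * B * (a.val * a⁻¹.val) := by simp only [Matrix.mul_assoc]
      _ = B := by rw [h1, h2, Matrix.one_mul, Matrix.mul_one]

/-- Invertible integral matrices with integral inverse, as real matrices. -/
def GLZ (n : ℕ) : Subgroup (GL (Fin n) ℝ) :=
  (Matrix.GeneralLinearGroup.map (n := Fin n) (Int.castRingHom ℝ)).range

/-- The group of integral automorphisms of the form with Gram matrix `G`. -/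
def OZ (G : Matrix (Fin n) (Fin n) ℤ) : Subgroup (GL (Fin n) ℝ) := OR (toR G) ⊓ GLZ n

/-- The group generated by all reflections of the lattice with Gram matrix `G`. -/
def W (G : Matrix (Fin n) (Fin n) ℤ) : Subgroup (GL (Fin n) ℝ) :=
  Subgroup.closure {g | g ∈ OZ G ∧ ∃ v, IsRefl (toR G) g v}

/-- `C⁻¹ Γ C`. -/
def cj (C : GL (Fin n) ℝ) (Γ : Subgroup (GL (Fin n) ℝ)) : Subgroup (GL (Fin n) ℝ) :=
  Γ.map (MulAut.conj C⁻¹).toMonoidHom

/-- `Γ` is generated by reflections. -/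
def IsReflGroup (B : Matrix (Fin n) (Fin n) ℝ) (Γ : Subgroup (GL (Fin n) ℝ)) : Prop :=
  Γ = Subgroup.closure {g | g ∈ Γ ∧ ∃ v, IsRefl B g v}

/-- The Lorentzian form of signature `(m, 1)`. -/
def J (m : ℕ) : Matrix (Fin (m + 1)) (Fin (m + 1)) ℝ :=
  Matrix.diagonal (fun i => if i = Fin.last m then -1 else 1)

/-- `Γ ≤ O(m,1)` is a non-uniform arithmetic group (defined over `ℚ` and isotropic): in suitable
real coordinates it is commensurable with the group of integral automorphisms of an isotropic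
integral form of signature `(m, 1)`. -/
def IsArith {m : ℕ} (Γ : Subgroup (GL (Fin (m + 1)) ℝ)) : Prop :=
  Γ ≤ OR (J m) ∧ ∃ (G : Matrix (Fin (m + 1)) (Fin (m + 1)) ℤ) (C : GL (Fin (m + 1)) ℝ),
    C.valᵀ * J m * C.val = toR G ∧ (∃ e : Fin (m + 1) → ℤ, e ≠ 0 ∧ e ⬝ᵥ (G *ᵥ e) = 0) ∧
      (OZ G).relIndex (cj C Γ) ≠ 0 ∧ (cj C Γ).relIndex (OZ G) ≠ 0

/-- `Γ` is a maximal non-uniform arithmetic reflection group of hyperbolic `m`-space. -/
def IsMaxRefl {m : ℕ} (Γ : Subgroup (GL (Fin (m + 1)) ℝ)) : Prop :=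
  IsArith Γ ∧ IsReflGroup (J m) Γ ∧
    ∀ Γ' : Subgroup (GL (Fin (m + 1)) ℝ), IsArith Γ' → IsReflGroup (J m) Γ' → Γ ≤ Γ' → Γ' = Γ

/-- `(G, C)` is an integral model of `Γ`: `Γ` becomes a finite index subgroup of `O(G, ℤ)`. -/
def Model {m : ℕ} (Γ : Subgroup (GL (Fin (m + 1)) ℝ)) (G : Matrix (Fin (m + 1)) (Fin (m + 1)) ℤ)
    (C : GL (Fin (m + 1)) ℝ) : Prop :=
  C.valᵀ * J m * C.val = toR G ∧ (∃ e : Fin (m + 1) → ℤ, e ≠ 0 ∧ e ⬝ᵥ (G *ᵥ e) = 0) ∧
    cj C Γ ≤ OZ G ∧ (cj C Γ).relIndex (OZ G) ≠ 0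

theorem mem_OR {B : Matrix (Fin n) (Fin n) ℝ} {g : GL (Fin n) ℝ} :
    g ∈ OR B ↔ g.valᵀ * B * g.val = B := Iff.rfl

theorem mem_GLZ {g : GL (Fin n) ℝ} :
    g ∈ GLZ n ↔ ∃ M : GL (Fin n) ℤ, g.val = M.val.map (Int.cast : ℤ → ℝ) := by
  constructor
  · rintro ⟨M, rfl⟩
    exact ⟨M, rfl⟩
  · rintro ⟨M, h⟩
    refine ⟨M, ?_⟩
    ext1
    rw [h]
    rfl

theorem mem_cj {C g : GL (Fin n) ℝ} {Γ : Subgroup (GL (Fin n) ℝ)} :
    g ∈ cj C Γ ↔ C * g * C⁻¹ ∈ Γ := by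
  constructor
  · rintro ⟨h, hh, rfl⟩
    simpa [MulAut.conj_apply, mul_assoc] using hh
  · intro h
    refine ⟨C * g * C⁻¹, h, ?_⟩
    simp [MulAut.conj_apply, mul_assoc]

end Pool.Agent.RFL
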