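import Mathlib
import Pool.Agent.Lib.MP_dcc566_gt_P1.Defs

/-!
Conjugation, scaling and reflections.
-/

set_option autoImplicit false

namespace Pool.Agent.RFL

open Matrix

variable {n : ℕ} {B : Matrix (Fin n) (Fin n) ℝ} {g : GL (Fin n) ℝ} {v : Fin n → ℝ}

theorem cj_cj (C D : GL (Fin n) ℝ) (Γ : Subgroup (GL (Fin n) ℝ)) :
    cj (C * D) Γ = cj D (cj C Γ) := by
  ext g
  rw [mem_cj, mem_cj, mem_cj, _root_.mul_inv_rev]
  simp only [mul_assoc]

theorem cj_one (Γ : Subgroup (GL (Fin n) ℝ)) : cj 1 Γ = Γ := by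
  ext g
  rw [mem_cj, one_mul, inv_one, mul_one]

theorem cj_mono (C : GL (Fin n) ℝ) {Γ Γ' : Subgroup (GL (Fin n) ℝ)} (h : Γ ≤ Γ') :
    cj C Γ ≤ cj C Γ' := Subgroup.map_mono h

private theorem valmul (C : GL (Fin n) ℝ) : C.val * C⁻¹.val = 1 := by
  rw [← Units.val_mul, mul_inv_cancel, Units.val_one]

private theorem valmul' (C : GL (Fin n) ℝ) : C⁻¹.val * C.val = 1 := by
  rw [← Units.val_mul, inv_mul_cancel, Units.val_one]

private theorem valmulT (C : GL (Fin n) ℝ) : C.valᵀ * C⁻¹.valᵀ = 1 := by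
  rw [← transpose_mul, valmul', transpose_one]

private theorem valmulT' (C : GL (Fin n) ℝ) : C⁻¹.valᵀ * C.valᵀ = 1 := by
  rw [← transpose_mul, valmul, transpose_one]

theorem cj_OR (B : Matrix (Fin n) (Fin n) ℝ) (C : GL (Fin n) ℝ) :
    cj C (OR B) = OR (C.valᵀ * B * C.val) := by
  ext g
  rw [mem_cj, mem_OR, mem_OR, Units.val_mul, Units.val_mul, transpose_mul, transpose_mul]
  constructor
  · intro h
    calc g.valᵀ * (C.valᵀ * B * C.val) * g.val
        = (C.valᵀ * C⁻¹.valᵀ) * g.valᵀ * (C.valᵀ * B * C.val) * g.val * (C⁻¹.val * C.val) := by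
          rw [valmulT, valmul', Matrix.one_mul, Matrix.mul_one]
      _ = C.valᵀ * (C⁻¹.valᵀ * (g.valᵀ * C.valᵀ) * B * (C.val * g.val * C⁻¹.val)) * C.val := by
          simp only [Matrix.mul_assoc]
      _ = C.valᵀ * B * C.val := by rw [h]
  · intro h
    calc C⁻¹.valᵀ * (g.valᵀ * C.valᵀ) * B * (C.val * g.val * C⁻¹.val)
        = C⁻¹.valᵀ * (g.valᵀ * (C.valᵀ * B * C.val) * g.val) * C⁻¹.val := by
          simp only [Matrix.mul_assoc]
      _ = C⁻¹.valᵀ * (C.valᵀ * B * C.val) * C⁻¹.val := by rw [h]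
      _ = (C⁻¹.valᵀ * C.valᵀ) * B * (C.val * C⁻¹.val) := by simp only [Matrix.mul_assoc]
      _ = B := by rw [valmulT', valmul, Matrix.one_mul, Matrix.mul_one]

theorem relIndex_cj (C : GL (Fin n) ℝ) (Γ Γ' : Subgroup (GL (Fin n) ℝ)) :
    (cj C Γ).relIndex (cj C Γ') = Γ.relIndex Γ' :=
  Subgroup.relIndex_map_map_of_injective Γ Γ' (MulAut.conj C⁻¹).injective

theorem bl_congr (B : Matrix (Fin n) (Fin n) ℝ) (C : Matrix (Fin n) (Fin n) ℝ)
    (x y : Fin n → ℝ) : bl (Cᵀ * B * C) x y = bl B (C *ᵥ x) (C *ᵥ y) := by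
  unfold bl
  rw [← Matrix.mulVec_mulVec, ← Matrix.mulVec_mulVec, Matrix.dotProduct_mulVec,
    Matrix.vecMul_transpose]

private theorem CCv (C : GL (Fin n) ℝ) (v : Fin n → ℝ) : C.val *ᵥ (C⁻¹.val *ᵥ v) = v := by
  rw [Matrix.mulVec_mulVec, valmul, Matrix.one_mulVec]

private theorem CCv' (C : GL (Fin n) ℝ) (v : Fin n → ℝ) : C⁻¹.val *ᵥ (C.val *ᵥ v) = v := by
  rw [Matrix.mulVec_mulVec, valmul', Matrix.one_mulVec]

theorem IsRefl.cj (h : IsRefl B g v) (C : GL (Fin n) ℝ) :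
    IsRefl (C.valᵀ * B * C.val) (C⁻¹ * g * C) (C⁻¹.val *ᵥ v) := by
  refine ⟨?_, fun x => ?_⟩
  · rw [bl_congr, CCv]
    exact h.1
  · rw [bl_congr, bl_congr, CCv, Units.val_mul, Units.val_mul, ← Matrix.mulVec_mulVec,
      ← Matrix.mulVec_mulVec, h.2, Matrix.mulVec_sub, CCv', Matrix.mulVec_smul]

private theorem back (B : Matrix (Fin n) (Fin n) ℝ) (C : GL (Fin n) ℝ) :
    C⁻¹.valᵀ * (C.valᵀ * B * C.val) * C⁻¹.val = B := by
  calc C⁻¹.valᵀ * (C.valᵀ * B * C.val) * C⁻¹.val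
      = (C⁻¹.valᵀ * C.valᵀ) * B * (C.val * C⁻¹.val) := by simp only [Matrix.mul_assoc]
    _ = B := by rw [valmulT', valmul, Matrix.one_mul, Matrix.mul_one]

theorem IsReflGroup.cj {Γ : Subgroup (GL (Fin n) ℝ)} (h : IsReflGroup B Γ)
    (C : GL (Fin n) ℝ) : IsReflGroup (C.valᵀ * B * C.val) (Pool.Agent.RFL.cj C Γ) := by
  unfold IsReflGroup at h ⊢
  have himg : (MulAut.conj C⁻¹).toMonoidHom '' {g | g ∈ Γ ∧ ∃ v, IsRefl B g v} =
      {g | g ∈ Pool.Agent.RFL.cj C Γ ∧ ∃ v, IsRefl (C.valᵀ * B * C.val) g v} := by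
    ext g
    constructor
    · rintro ⟨k, ⟨hk, v, hv⟩, rfl⟩
      refine ⟨⟨k, hk, rfl⟩, C⁻¹.val *ᵥ v, ?_⟩
      have h1 := hv.cj C
      have h2 : (MulAut.conj C⁻¹).toMonoidHom k = C⁻¹ * k * C := by
        simp
      rw [h2]
      exact h1
    · rintro ⟨hg, v, hv⟩
      rw [mem_cj] at hg
      have h1 := hv.cj C⁻¹
      rw [back] at h1
      rw [inv_inv] at h1
      refine ⟨C * g * C⁻¹, ⟨hg, C.val *ᵥ v, h1⟩, ?_⟩
      simp [mul_assoc]
  rw [← himg, ← MonoidHom.map_closure, ← h]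
  rfl

private theorem bl_add_left (B : Matrix (Fin n) (Fin n) ℝ) (x y z : Fin n → ℝ) :
    bl B (x - y) z = bl B x z - bl B y z := by
  unfold bl
  rw [sub_dotProduct]

private theorem bl_add_right (B : Matrix (Fin n) (Fin n) ℝ) (x y z : Fin n → ℝ) :
    bl B x (y - z) = bl B x y - bl B x z := by
  unfold bl
  rw [Matrix.mulVec_sub, dotProduct_sub]

private theorem bl_smul_left (B : Matrix (Fin n) (Fin n) ℝ) (c : ℝ) (x y : Fin n → ℝ) :
    bl B (c • x) y = c * bl B x y := by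
  unfold bl
  rw [smul_dotProduct, smul_eq_mul]

private theorem bl_smul_right (B : Matrix (Fin n) (Fin n) ℝ) (c : ℝ) (x y : Fin n → ℝ) :
    bl B x (c • y) = c * bl B x y := by
  unfold bl
  rw [Matrix.mulVec_smul, dotProduct_smul, smul_eq_mul]

private theorem bl_symm {B : Matrix (Fin n) (Fin n) ℝ} (hB : B.IsSymm) (x y : Fin n → ℝ) :
    bl B x y = bl B y x := by
  unfold bl
  rw [Matrix.dotProduct_mulVec, ← Matrix.mulVec_transpose, hB.eq, dotProduct_comm]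

private theorem mat_ext {M N : Matrix (Fin n) (Fin n) ℝ} (h : ∀ x y, bl M x y = bl N x y) :
    M = N := by
  ext i j
  have h1 := h (Pi.single i 1) (Pi.single j 1)
  unfold bl at h1
  simpa using h1

theorem IsRefl.mem_OR (hB : B.IsSymm) (h : IsRefl B g v) : g ∈ OR B := by
  have h0 : bl B v v ≠ 0 := h.1.ne'
  refine Pool.Agent.RFL.mem_OR.mpr (mat_ext fun x y => ?_)
  rw [bl_congr, h.2, h.2, bl_add_left, bl_add_right, bl_add_right, bl_smul_left,
    bl_smul_right, bl_smul_left, bl_smul_right, bl_symm hB x v]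
  field_simp
  ring

private theorem bl_smul_mat (c : ℝ) (B : Matrix (Fin n) (Fin n) ℝ) (x y : Fin n → ℝ) :
    bl (c • B) x y = c * bl B x y := by
  unfold bl
  rw [Matrix.smul_mulVec, dotProduct_smul, smul_eq_mul]

theorem isRefl_smul {c : ℝ} (hc : 0 < c) : IsRefl (c • B) g v ↔ IsRefl B g v := by
  unfold IsRefl
  have h1 : ∀ x : Fin n → ℝ, 2 * bl (c • B) v x / bl (c • B) v v = 2 * bl B v x / bl B v v := by
    intro x
    rw [bl_smul_mat, bl_smul_mat,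
      show 2 * (c * bl B v x) = c * (2 * bl B v x) by ring, mul_div_mul_left _ _ hc.ne']
  simp only [h1]
  rw [bl_smul_mat, mul_pos_iff_of_pos_left hc]

theorem OR_smul {c : ℝ} (hc : c ≠ 0) : OR (c • B) = OR B := by
  ext g
  rw [mem_OR, mem_OR, Matrix.mul_smul, Matrix.smul_mul]
  exact (smul_right_injective _ hc).eq_iff

theorem isReflGroup_smul {c : ℝ} (hc : 0 < c) {Γ : Subgroup (GL (Fin n) ℝ)} :
    IsReflGroup (c • B) Γ ↔ IsReflGroup B Γ := by
  unfold IsReflGroup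
  simp only [isRefl_smul hc]

theorem exists_scaled (C : GL (Fin n) ℝ) {c : ℝ} (hc : c ≠ 0) :
    ∃ C' : GL (Fin n) ℝ, C'.val = c • C.val ∧ ∀ Γ : Subgroup (GL (Fin n) ℝ),
      Pool.Agent.RFL.cj C' Γ = Pool.Agent.RFL.cj C Γ := by
  refine ⟨⟨c • C.val, c⁻¹ • C⁻¹.val, ?_, ?_⟩, rfl, fun Γ => ?_⟩
  · rw [Matrix.smul_mul, Matrix.mul_smul, smul_smul, mul_inv_cancel₀ hc, one_smul, valmul]
  · rw [Matrix.smul_mul, Matrix.mul_smul, smul_smul, inv_mul_cancel₀ hc, one_smul, valmul']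
  · ext g
    rw [mem_cj, mem_cj]
    have h1 : (⟨c • C.val, c⁻¹ • C⁻¹.val, by
        rw [Matrix.smul_mul, Matrix.mul_smul, smul_smul, mul_inv_cancel₀ hc, one_smul, valmul],
        by rw [Matrix.smul_mul, Matrix.mul_smul, smul_smul, inv_mul_cancel₀ hc, one_smul,
          valmul']⟩ : GL (Fin n) ℝ) * g * (⟨c • C.val, c⁻¹ • C⁻¹.val, by
        rw [Matrix.smul_mul, Matrix.mul_smul, smul_smul, mul_inv_cancel₀ hc, one_smul, valmul],
        by rw [Matrix.smul_mul, Matrix.mul_smul, smul_smul, inv_mul_cancel₀ hc, one_smul,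
          valmul']⟩ : GL (Fin n) ℝ)⁻¹ = C * g * C⁻¹ := by
      ext1
      change (c • C.val) * g.val * (c⁻¹ • C⁻¹.val) = C.val * g.val * C⁻¹.val
      rw [Matrix.smul_mul, Matrix.smul_mul, Matrix.mul_smul, smul_smul, mul_inv_cancel₀ hc,
        one_smul]
    rw [h1]

end Pool.Agent.RFL
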