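import Mathlib
import Pool.Agent.Lib.MP_dcc566_gt_P1.Cj

/-!
Integrality and finite index after a change of lattice.
-/

set_option autoImplicit false

namespace Pool.Agent.RFL

open Matrix

variable {n : ℕ}

private theorem toR_mul (M N : Matrix (Fin n) (Fin n) ℤ) : toR (M * N) = toR M * toR N :=
  Matrix.map_mul (f := Int.castRingHom ℝ)

private theorem toR_one : toR (1 : Matrix (Fin n) (Fin n) ℤ) = 1 := by
  unfold toR
  exact Matrix.map_one _ Int.cast_zero Int.cast_one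

private theorem toR_inj {M N : Matrix (Fin n) (Fin n) ℤ} (h : toR M = toR N) : M = N := by
  ext i j
  have h1 := congrFun (congrFun h i) j
  have h2 : ((M i j : ℤ) : ℝ) = ((N i j : ℤ) : ℝ) := h1
  exact_mod_cast h2

private theorem toR_det (M : Matrix (Fin n) (Fin n) ℤ) : (toR M).det = ((M.det : ℤ) : ℝ) :=
  ((Int.castRingHom ℝ).map_det M).symm

private theorem mem_GLZ_of {g : GL (Fin n) ℝ} {M N : Matrix (Fin n) (Fin n) ℤ}
    (hM : g.val = toR M) (hN : g⁻¹.val = toR N) : g ∈ GLZ n := by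
  have h1 : M * N = 1 := by
    apply toR_inj
    rw [toR_mul, ← hM, ← hN, toR_one, ← Units.val_mul, mul_inv_cancel, Units.val_one]
  have h2 : N * M = 1 := by
    apply toR_inj
    rw [toR_mul, ← hM, ← hN, toR_one, ← Units.val_mul, inv_mul_cancel, Units.val_one]
  exact mem_GLZ.mpr ⟨⟨M, N, h1, h2⟩, hM⟩

private theorem cancel_left (PR : GL (Fin n) ℝ) {A B : Matrix (Fin n) (Fin n) ℝ}
    (h : PR.val * A = PR.val * B) : A = B := by
  have h1 : PR⁻¹.val * PR.val = 1 := by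
    rw [← Units.val_mul, inv_mul_cancel, Units.val_one]
  calc A = (PR⁻¹.val * PR.val) * A := by rw [h1, Matrix.one_mul]
    _ = PR⁻¹.val * (PR.val * A) := by rw [Matrix.mul_assoc]
    _ = PR⁻¹.val * (PR.val * B) := by rw [h]
    _ = (PR⁻¹.val * PR.val) * B := by rw [Matrix.mul_assoc]
    _ = B := by rw [h1, Matrix.one_mul]

theorem exists_real_unit {P : Matrix (Fin n) (Fin n) ℤ} (hP : P.det ≠ 0) :
    ∃ PR : GL (Fin n) ℝ, PR.val = toR P := by
  refine ⟨Matrix.GeneralLinearGroup.mkOfDetNeZero (toR P) ?_, rfl⟩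
  rw [toR_det]
  exact_mod_cast hP

theorem cj_le_GLZ {Γ : Subgroup (GL (Fin n) ℝ)} {P : Matrix (Fin n) (Fin n) ℤ}
    {PR : GL (Fin n) ℝ} (hPR : PR.val = toR P)
    (h : ∀ g ∈ Γ, ∃ M : Matrix (Fin n) (Fin n) ℤ, g.val * toR P = toR P * toR M) :
    cj PR Γ ≤ GLZ n := by
  have key : ∀ g : GL (Fin n) ℝ, g ∈ cj PR Γ → ∃ M : Matrix (Fin n) (Fin n) ℤ,
      g.val = toR M := by
    intro g hg
    rw [mem_cj] at hg
    obtain ⟨M, hM⟩ := h _ hg
    refine ⟨M, cancel_left PR ?_⟩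
    rw [← hPR] at hM
    rw [← hM, ← Units.val_mul, ← Units.val_mul]
    congr 1
    group
  intro g hg
  obtain ⟨M, hM⟩ := key g hg
  obtain ⟨N, hN⟩ := key g⁻¹ (inv_mem hg)
  exact mem_GLZ_of hM hN

private theorem conj_int {P : Matrix (Fin n) (Fin n) ℤ} {PR : GL (Fin n) ℝ}
    (hPR : PR.val = toR P) {g : GL (Fin n) ℝ} {N : Matrix (Fin n) (Fin n) ℤ}
    (hg : g.val = toR (1 + P.det • N)) :
    (PR * g * PR⁻¹).val = toR (1 + P * N * P.adjugate) := by
  have h1 : (1 + P * N * P.adjugate) * P = P * (1 + P.det • N) := by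
    rw [Matrix.add_mul, Matrix.one_mul, Matrix.mul_assoc, Matrix.adjugate_mul,
      Matrix.mul_add, Matrix.mul_one, Matrix.mul_smul, Matrix.mul_one, Matrix.mul_smul]
  have h2 : toR (1 + P * N * P.adjugate) * PR.val = PR.val * g.val := by
    rw [hPR, hg, ← toR_mul, ← toR_mul, h1]
  rw [Units.val_mul, Units.val_mul, ← h2, Matrix.mul_assoc, ← Units.val_mul, mul_inv_cancel,
    Units.val_one, Matrix.mul_one]

theorem relIndex_change {G G₁ P : Matrix (Fin n) (Fin n) ℤ} {PR : GL (Fin n) ℝ}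
    (hPR : PR.val = toR P) {c : ℝ} (hc : 0 < c)
    (hG : toR G₁ = c • (PR.valᵀ * toR G * PR.val)) {Γ : Subgroup (GL (Fin n) ℝ)}
    (h : Γ.relIndex (OZ G) ≠ 0) : (cj PR Γ).relIndex (OZ G₁) ≠ 0 := by
  have hdet : P.det ≠ 0 := by
    intro h0
    have h1 : (toR P).det = 0 := by rw [toR_det, h0, Int.cast_zero]
    rw [← hPR] at h1
    have h2 : PR.val.det * PR⁻¹.val.det = 1 := by
      rw [← Matrix.det_mul, ← Units.val_mul, mul_inv_cancel, Units.val_one, Matrix.det_one]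
    rw [h1, zero_mul] at h2
    exact zero_ne_one h2
  set d : ℕ := P.det.natAbs with hd
  have hd0 : d ≠ 0 := Int.natAbs_ne_zero.mpr hdet
  have : NeZero d := ⟨hd0⟩
  let φ : GL (Fin n) ℤ →* GL (Fin n) (ZMod d) :=
    Matrix.GeneralLinearGroup.map (n := Fin n) (Int.castRingHom (ZMod d))
  let ψ : GL (Fin n) ℤ →* GL (Fin n) ℝ :=
    Matrix.GeneralLinearGroup.map (n := Fin n) (Int.castRingHom ℝ)
  have hψ : Function.Injective ψ := by
    intro a b hab
    ext1
    apply toR_inj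
    exact congrArg Units.val hab
  have hGLZ : GLZ n = (⊤ : Subgroup (GL (Fin n) ℤ)).map ψ := MonoidHom.range_eq_map ψ
  have hfin : (φ.ker.map ψ).relIndex (GLZ n) ≠ 0 := by
    rw [hGLZ, Subgroup.relIndex_map_map_of_injective _ _ hψ, Subgroup.relIndex_top_right]
    have : Finite (GL (Fin n) (ZMod d)) := inferInstance
    exact (Subgroup.finiteIndex_ker φ).index_ne_zero
  have hle : OZ G₁ ≤ GLZ n := inf_le_right
  have hK1 : (φ.ker.map ψ).relIndex (OZ G₁) ≠ 0 := by
    intro h0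
    exact hfin (Subgroup.relIndex_eq_zero_of_le_right hle h0)
  -- the congruence subgroup lies in the conjugate
  have hK2 : φ.ker.map ψ ⊓ OZ G₁ ≤ cj PR (OZ G) := by
    have key : ∀ g : GL (Fin n) ℝ, g ∈ φ.ker.map ψ →
        ∃ M : Matrix (Fin n) (Fin n) ℤ, (PR * g * PR⁻¹).val = toR M := by
      rintro g ⟨m, hm, rfl⟩
      have h1 : ∀ i j, ∃ a : ℤ, m.val i j = (1 : Matrix (Fin n) (Fin n) ℤ) i j + P.det * a := by
        intro i j
        have h2 : (φ m).val i j = (1 : Matrix (Fin n) (Fin n) (ZMod d)) i j := by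
          have h3 : φ m = 1 := hm
          rw [h3]
          rfl
        have h4 : ((m.val i j : ℤ) : ZMod d) = (((1 : Matrix (Fin n) (Fin n) ℤ) i j : ℤ) :
            ZMod d) := by
          have h5 : (φ m).val i j = ((m.val i j : ℤ) : ZMod d) := rfl
          rw [← h5, h2]
          by_cases hij : i = j
          · subst hij
            simp
          · simp [Matrix.one_apply_ne hij]
        rw [← sub_eq_zero, ← Int.cast_sub, ZMod.intCast_zmod_eq_zero_iff_dvd, hd,
          Int.natAbs_dvd] at h4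
        obtain ⟨a, ha⟩ := h4
        exact ⟨a, by linarith⟩
      choose N hN using h1
      refine ⟨1 + P * (Matrix.of N) * P.adjugate, conj_int hPR ?_⟩
      change toR m.val = _
      congr 1
      ext i j
      rw [hN i j]
      simp
    rintro g ⟨hg1, hg2⟩
    rw [mem_cj]
    refine ⟨?_, ?_⟩
    · have h1 : g ∈ OR (toR G₁) := hg2.1
      rw [hG, OR_smul hc.ne', ← cj_OR, mem_cj] at h1
      exact h1
    · obtain ⟨M, hM⟩ := key g hg1
      obtain ⟨N, hN⟩ := key g⁻¹ (inv_mem hg1)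
      have h2 : (PR * g * PR⁻¹)⁻¹ = PR * g⁻¹ * PR⁻¹ := by group
      exact mem_GLZ_of hM (by rw [h2]; exact hN)
  have h3 : (cj PR Γ).relIndex (cj PR (OZ G)) ≠ 0 := by
    rw [relIndex_cj]
    exact h
  have h4 : (cj PR Γ).relIndex (φ.ker.map ψ ⊓ OZ G₁) ≠ 0 := by
    intro h0
    exact h3 (Subgroup.relIndex_eq_zero_of_le_right hK2 h0)
  have h5 : (φ.ker.map ψ ⊓ OZ G₁).relIndex (OZ G₁) ≠ 0 := by
    rw [Subgroup.inf_relIndex_right]
    exact hK1
  exact Subgroup.relIndex_ne_zero_trans h4 h5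

end Pool.Agent.RFL
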