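import Mathlib
import Pool.Agent.Lib.MP_dcc566_gt_P1.Cj

/-!
Lorentzian geometry: vectors orthogonal to an isotropic vector.
-/

set_option autoImplicit false

namespace Pool.Agent.RFL

open Matrix

theorem J_isSymm (m : ℕ) : (J m).IsSymm := by
  rw [J]
  exact Matrix.isSymm_diagonal _

private theorem Lor_bl {m : ℕ} (x y : Fin (m + 1) → ℝ) : bl (J m) x y =
    ∑ i : Fin m, x i.castSucc * y i.castSucc - x (Fin.last m) * y (Fin.last m) := by
  rw [bl, J, dotProduct, Fin.sum_univ_castSucc]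
  simp only [mulVec_diagonal]
  rw [if_pos trivial]
  have h : ∀ i : Fin m, i.castSucc ≠ Fin.last m := fun i => (Fin.castSucc_lt_last i).ne
  simp only [h, if_false, one_mul]
  ring

theorem bl_J_pos {m : ℕ} {e t : Fin (m + 1) → ℝ} (he : e ≠ 0) (hee : bl (J m) e e = 0)
    (het : bl (J m) e t = 0) (ht : ∀ c : ℝ, t ≠ c • e) : 0 < bl (J m) t t := by
  rw [Lor_bl] at hee het ⊢
  have hl : e (Fin.last m) ≠ 0 := by
    intro h
    apply he
    rw [h, mul_zero, sub_zero] at hee
    have h1 := (Finset.sum_eq_zero_iff_of_nonneg (fun i _ => mul_self_nonneg _)).1 hee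
    funext i
    induction i using Fin.lastCases with
    | last => exact h
    | cast i => exact mul_self_eq_zero.1 (h1 i (Finset.mem_univ i))
  obtain ⟨c, hc⟩ : ∃ c, c = t (Fin.last m) / e (Fin.last m) := ⟨_, rfl⟩
  have hce : t (Fin.last m) = c * e (Fin.last m) := by
    rw [hc]
    field_simp
  have h1 : ∑ i : Fin m, t i.castSucc * t i.castSucc - t (Fin.last m) * t (Fin.last m) =
      ∑ i : Fin m, (t i.castSucc - c * e i.castSucc) ^ 2 := by
    have h2 : ∑ i : Fin m, (t i.castSucc - c * e i.castSucc) ^ 2 =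
        ∑ i : Fin m, t i.castSucc * t i.castSucc -
          2 * c * ∑ i : Fin m, e i.castSucc * t i.castSucc +
          c ^ 2 * ∑ i : Fin m, e i.castSucc * e i.castSucc := by
      rw [Finset.mul_sum, Finset.mul_sum, ← Finset.sum_sub_distrib, ← Finset.sum_add_distrib]
      refine Finset.sum_congr rfl fun i _ => ?_
      ring
    rw [h2]
    have h3 := hee
    have h4 := het
    rw [hce] at h4 ⊢
    linear_combination 2 * c * h4 - c ^ 2 * h3
  rw [h1]
  have h5 : ∃ i, t i ≠ (c • e) i := by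
    by_contra hcon
    push Not at hcon
    exact ht c (funext hcon)
  obtain ⟨i, hi⟩ := h5
  have h6 : ∃ j : Fin m, t j.castSucc ≠ c * e j.castSucc := by
    induction i using Fin.lastCases with
    | last => exact absurd hce hi
    | cast i => exact ⟨i, hi⟩
  obtain ⟨j, hj⟩ := h6
  exact Finset.sum_pos' (fun i _ => sq_nonneg _)
    ⟨j, Finset.mem_univ j, by
      have : t j.castSucc - c * e j.castSucc ≠ 0 := sub_ne_zero.2 hj
      positivity⟩

theorem bl_toR {n : ℕ} (G : Matrix (Fin n) (Fin n) ℤ) (x y : Fin n → ℤ) :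
    bl (toR G) (fun i => (x i : ℝ)) (fun i => (y i : ℝ)) = ((x ⬝ᵥ (G *ᵥ y) : ℤ) : ℝ) := by
  simp only [bl, toR, dotProduct, mulVec, Matrix.map_apply]
  push_cast
  rfl

section Model

variable {m : ℕ} {G : Matrix (Fin (m + 1)) (Fin (m + 1)) ℤ} {C : GL (Fin (m + 1)) ℝ}

theorem isSymm_of_model (h : C.valᵀ * J m * C.val = toR G) : G.IsSymm := by
  have h1 : (toR G)ᵀ = toR G := by
    rw [← h, transpose_mul, transpose_mul, transpose_transpose, (J_isSymm m).eq, Matrix.mul_assoc]
  rw [Matrix.IsSymm]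
  ext i j
  have h2 := congrFun (congrFun h1 i) j
  rw [transpose_apply, toR, Matrix.map_apply, Matrix.map_apply] at h2
  rw [transpose_apply]
  exact_mod_cast h2

theorem det_ne_zero_of_model (h : C.valᵀ * J m * C.val = toR G) : G.det ≠ 0 := by
  intro h0
  have h1 : (toR G).det = 0 := by
    have h2 := (Int.castRingHom ℝ).map_det G
    rw [h0, map_zero] at h2
    exact h2.symm
  rw [← h, det_mul, det_mul, det_transpose] at h1
  have hC : C.val.det ≠ 0 := by
    have := (Matrix.isUnit_iff_isUnit_det C.val).1 C.isUnit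
    exact this.ne_zero
  have hJ : (J m).det ≠ 0 := by
    rw [J, det_diagonal]
    refine Finset.prod_ne_zero_iff.2 fun i _ => ?_
    split_ifs
    · norm_num
    · norm_num
  exact mul_ne_zero (mul_ne_zero hC hJ) hC h1

private theorem Lor_inj (C : GL (Fin (m + 1)) ℝ) {x y : Fin (m + 1) → ℝ}
    (h : C.val *ᵥ x = C.val *ᵥ y) : x = y := by
  have h1 := congrArg (fun z => C⁻¹.val *ᵥ z) h
  simp only [mulVec_mulVec] at h1
  have h2 : C⁻¹.val * C.val = 1 := by rw [← Units.val_mul, inv_mul_cancel, Units.val_one]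
  rw [h2, one_mulVec, one_mulVec] at h1
  exact h1

theorem pos_of_perp (h : C.valᵀ * J m * C.val = toR G) {e t : Fin (m + 1) → ℤ} (he : e ≠ 0)
    (hee : e ⬝ᵥ (G *ᵥ e) = 0) (het : e ⬝ᵥ (G *ᵥ t) = 0)
    (ht : ∀ a b : ℤ, a • t = b • e → a = 0) : 0 < t ⬝ᵥ (G *ᵥ t) := by
  have key : ∀ x y : Fin (m + 1) → ℤ,
      bl (J m) (C.val *ᵥ fun i => (x i : ℝ)) (C.val *ᵥ fun i => (y i : ℝ)) =
        ((x ⬝ᵥ (G *ᵥ y) : ℤ) : ℝ) := by
    intro x y
    rw [← bl_congr, h, bl_toR]
  have h1 := bl_J_pos (m := m) (e := C.val *ᵥ fun i => (e i : ℝ))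
    (t := C.val *ᵥ fun i => (t i : ℝ)) ?_ (by rw [key, hee, Int.cast_zero])
    (by rw [key, het, Int.cast_zero]) ?_
  · rw [key] at h1
    exact_mod_cast h1
  · intro h0
    apply he
    have h2 : (fun i => (e i : ℝ)) = 0 := Lor_inj C (by rw [h0, mulVec_zero])
    funext i
    have := congrFun h2 i
    simpa using this
  · intro c hc
    have h2 : (fun i => (t i : ℝ)) = c • fun i => (e i : ℝ) := Lor_inj C (by
      rw [hc, mulVec_smul])
    obtain ⟨i, hi⟩ : ∃ i, e i ≠ 0 := by
      by_contra hcon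
      push Not at hcon
      exact he (funext hcon)
    have h3 : ∀ j, (t j : ℝ) = c * e j := fun j => congrFun h2 j
    apply hi
    apply ht (e i) (t i)
    funext j
    have h4 : ((e i * t j : ℤ) : ℝ) = ((t i * e j : ℤ) : ℝ) := by
      push_cast
      rw [h3 i, h3 j]
      ring
    exact_mod_cast h4

theorem exists_perp (hm : 2 ≤ m) (h : C.valᵀ * J m * C.val = toR G) {e : Fin (m + 1) → ℤ}
    (he : e ≠ 0) (hee : e ⬝ᵥ (G *ᵥ e) = 0) :
    ∃ t : Fin (m + 1) → ℤ, e ⬝ᵥ (G *ᵥ t) = 0 ∧ 0 < t ⬝ᵥ (G *ᵥ t) := by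
  obtain ⟨i, hi⟩ : ∃ i, e i ≠ 0 := by
    by_contra hcon
    push Not at hcon
    exact he (funext hcon)
  obtain ⟨g, hg⟩ : ∃ g : Fin (m + 1) → ℤ, g = e ᵥ* G := ⟨_, rfl⟩
  have hf : ∀ x, e ⬝ᵥ (G *ᵥ x) = g ⬝ᵥ x := fun x => by rw [dotProduct_mulVec, hg]
  have hcard : 1 < (Finset.univ.erase i : Finset (Fin (m + 1))).card := by
    rw [Finset.card_erase_of_mem (Finset.mem_univ i), Finset.card_univ, Fintype.card_fin]
    omega
  obtain ⟨j, hj, k, hk, hjk⟩ := Finset.one_lt_card.1 hcard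
  have hji : j ≠ i := Finset.ne_of_mem_erase hj
  have hki : k ≠ i := Finset.ne_of_mem_erase hk
  have hx : ∃ x : Fin (m + 1) → ℤ, x ≠ 0 ∧ x i = 0 ∧ g ⬝ᵥ x = 0 := by
    by_cases h0 : g j = 0
    · refine ⟨Pi.single j 1, ?_, ?_, ?_⟩
      · intro h1
        have := congrFun h1 j
        simp at this
      · rw [Pi.single_eq_of_ne hji.symm]
      · rw [dotProduct_single, h0, zero_mul]
    · refine ⟨g k • Pi.single j 1 - g j • Pi.single k 1, ?_, ?_, ?_⟩
      · intro h1
        have h2 := congrFun h1 k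
        rw [Pi.sub_apply, Pi.smul_apply, Pi.smul_apply, Pi.single_eq_of_ne hjk.symm,
          Pi.single_eq_same, Pi.zero_apply] at h2
        apply h0
        simpa using h2
      · rw [Pi.sub_apply, Pi.smul_apply, Pi.smul_apply, Pi.single_eq_of_ne hji.symm,
          Pi.single_eq_of_ne hki.symm]
        simp
      · rw [dotProduct_sub, dotProduct_smul, dotProduct_smul, dotProduct_single,
          dotProduct_single]
        simp only [smul_eq_mul, mul_one]
        ring
  obtain ⟨x, hx0, hxi, hgx⟩ := hx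
  refine ⟨x, by rw [hf, hgx], pos_of_perp h he hee (by rw [hf, hgx]) ?_⟩
  intro a b hab
  have h1 := congrFun hab i
  rw [Pi.smul_apply, Pi.smul_apply, hxi, smul_zero, smul_eq_mul] at h1
  have h2 : b = 0 := by
    rcases mul_eq_zero.1 h1.symm with h3 | h3
    · exact h3
    · exact absurd h3 hi
  rw [h2, zero_smul] at hab
  rcases smul_eq_zero.1 hab with h3 | h3
  · exact h3
  · exact absurd h3 hx0

end Model

end Pool.Agent.RFL
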