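import Mathlib
import Pool.Agent.Lib.MP_dcc566_gt_P1.IntC
import Pool.Agent.Lib.MP_dcc566_gt_P1.Lor

/-!
Change of the lattice in a model.
-/

set_option autoImplicit false

namespace Pool.Agent.RFL

open Matrix

variable {m : ℕ} {Γ : Subgroup (GL (Fin (m + 1)) ℝ)}

private theorem Chg_mul {n : ℕ} (A B : Matrix (Fin n) (Fin n) ℤ) :
    toR (A * B) = toR A * toR B := by
  have h := Matrix.map_mul (L := A) (M := B) (f := Int.castRingHom ℝ)
  exact h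

private theorem Chg_transpose {n : ℕ} (A : Matrix (Fin n) (Fin n) ℤ) :
    toR Aᵀ = (toR A)ᵀ := rfl

private theorem Chg_bl_smul {n : ℕ} (c : ℝ) (B : Matrix (Fin n) (Fin n) ℝ) (x y : Fin n → ℝ) :
    bl (c • B) x y = c * bl B x y := by
  unfold bl
  rw [smul_mulVec, dotProduct_smul, smul_eq_mul]

private theorem Chg_congr {n : ℕ} (G P : Matrix (Fin n) (Fin n) ℤ) (x : Fin n → ℤ) :
    x ⬝ᵥ ((Pᵀ * G * P) *ᵥ x) = (P *ᵥ x) ⬝ᵥ (G *ᵥ (P *ᵥ x)) := by
  rw [← mulVec_mulVec, ← mulVec_mulVec, dotProduct_mulVec x, vecMul_transpose]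

theorem model_change {G : Matrix (Fin (m + 1)) (Fin (m + 1)) ℤ} {C : GL (Fin (m + 1)) ℝ}
    (hO : Γ ≤ OR (J m)) (h : C.valᵀ * J m * C.val = toR G)
    (hiso : ∃ e : Fin (m + 1) → ℤ, e ≠ 0 ∧ e ⬝ᵥ (G *ᵥ e) = 0)
    (hI : (cj C Γ).relIndex (OZ G) ≠ 0) {P G₁ : Matrix (Fin (m + 1)) (Fin (m + 1)) ℤ}
    (hP : P.det ≠ 0) {c : ℝ} (hc : 0 < c) (hG : toR G₁ = c • toR (Pᵀ * G * P))
    (hinv : ∀ g ∈ cj C Γ, ∃ M : Matrix (Fin (m + 1)) (Fin (m + 1)) ℤ,
      g.val * toR P = toR P * toR M) :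
    ∃ C₁ : GL (Fin (m + 1)) ℝ, Model Γ G₁ C₁ := by
  obtain ⟨PR, hPR⟩ := exists_real_unit hP
  obtain ⟨C₁, hC₁, hC₁cj⟩ := exists_scaled (C * PR) (Real.sqrt_pos.2 hc).ne'
  have hG' : toR G₁ = c • (PR.valᵀ * toR G * PR.val) := by
    rw [hG, Chg_mul, Chg_mul, Chg_transpose, hPR]
  have hcc : Real.sqrt c * Real.sqrt c = c := Real.mul_self_sqrt hc.le
  have hform : C₁.valᵀ * J m * C₁.val = toR G₁ := by
    rw [hC₁, hG', ← h, Units.val_mul, transpose_smul, transpose_mul, smul_mul_assoc,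
      smul_mul_assoc, mul_smul_comm, smul_smul, hcc]
    congr 1
    simp only [Matrix.mul_assoc]
  have hcj : cj C₁ Γ = cj PR (cj C Γ) := by
    rw [hC₁cj, cj_cj]
  refine ⟨C₁, hform, ?_, ?_, ?_⟩
  · obtain ⟨e, he, hee⟩ := hiso
    refine ⟨P.adjugate *ᵥ e, ?_, ?_⟩
    · intro h0
      have h1 : P *ᵥ (P.adjugate *ᵥ e) = P.det • e := by
        rw [mulVec_mulVec, mul_adjugate, smul_mulVec, one_mulVec]
      rw [h0, mulVec_zero] at h1
      rcases smul_eq_zero.1 h1.symm with h2 | h2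
      · exact hP h2
      · exact he h2
    · have h1 : P *ᵥ (P.adjugate *ᵥ e) = P.det • e := by
        rw [mulVec_mulVec, mul_adjugate, smul_mulVec, one_mulVec]
      have h2 := bl_toR G₁ (P.adjugate *ᵥ e) (P.adjugate *ᵥ e)
      rw [hG, Chg_bl_smul, bl_toR, Chg_congr, h1, mulVec_smul, smul_dotProduct,
        dotProduct_smul, hee, smul_zero, smul_zero, Int.cast_zero, mul_zero] at h2
      exact_mod_cast h2.symm
  · refine le_inf ?_ ?_
    · have h1 := cj_mono C₁ hO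
      rw [cj_OR, hform] at h1
      exact h1
    · rw [hcj]
      exact cj_le_GLZ hPR hinv
  · rw [hcj]
    exact relIndex_change hPR hc hG' hI

end Pool.Agent.RFL
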