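import Mathlib
import Pool.Agent.Lib.MP_dcc566_gt_P1.Chg

/-!
A maximal reflection group is the full reflection group of each of its models.
-/

set_option autoImplicit false

namespace Pool.Agent.RFL

open Matrix

variable {n m : ℕ}

theorem W_le (G : Matrix (Fin n) (Fin n) ℤ) : W G ≤ OZ G := by
  unfold W
  rw [Subgroup.closure_le]
  exact fun g hg => hg.1

theorem isReflGroup_W (G : Matrix (Fin n) (Fin n) ℤ) : IsReflGroup (toR G) (W G) := by
  unfold IsReflGroup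
  apply le_antisymm
  · have h1 : ∀ g ∈ {g | g ∈ OZ G ∧ ∃ v, IsRefl (toR G) g v}, g ∈ W G := fun g hg =>
      Subgroup.subset_closure hg
    intro g hg
    refine Subgroup.closure_mono (fun x hx => ?_) hg
    exact ⟨h1 x hx, hx.2⟩
  · rw [Subgroup.closure_le]
    exact fun g hg => hg.1

private theorem Mx_cancel (B : Matrix (Fin n) (Fin n) ℝ) (C : GL (Fin n) ℝ) :
    C⁻¹.valᵀ * (C.valᵀ * B * C.val) * C⁻¹.val = B := by
  have h1 : C.val * C⁻¹.val = 1 := by rw [← Units.val_mul, mul_inv_cancel, Units.val_one]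
  have h2 : C⁻¹.valᵀ * C.valᵀ = 1 := by rw [← transpose_mul, h1, transpose_one]
  calc C⁻¹.valᵀ * (C.valᵀ * B * C.val) * C⁻¹.val
      = (C⁻¹.valᵀ * C.valᵀ) * B * (C.val * C⁻¹.val) := by simp only [Matrix.mul_assoc]
    _ = B := by rw [h1, h2, Matrix.one_mul, Matrix.mul_one]

theorem eq_W_of_max {Γ : Subgroup (GL (Fin (m + 1)) ℝ)} (h : IsMaxRefl Γ)
    {G : Matrix (Fin (m + 1)) (Fin (m + 1)) ℤ} {C : GL (Fin (m + 1)) ℝ} (hM : Model Γ G C) :
    cj C Γ = W G ∧ (W G).relIndex (OZ G) ≠ 0 := by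
  obtain ⟨hA, hR, hmax⟩ := h
  obtain ⟨hC, hiso, hle, hidx⟩ := hM
  have hR' := hR.cj C
  rw [hC] at hR'
  have hle2 : cj C Γ ≤ W G := by
    intro x hx
    unfold IsReflGroup at hR'
    rw [hR'] at hx
    refine Subgroup.closure_mono (fun y hy => ?_) hx
    exact ⟨hle hy.1, hy.2⟩
  have hidxW : (W G).relIndex (OZ G) ≠ 0 := by
    intro h0
    have h1 := Subgroup.relIndex_dvd_of_le_left (OZ G) hle2
    rw [h0] at h1
    exact hidx (Nat.eq_zero_of_zero_dvd h1)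
  have hJ : C⁻¹.valᵀ * toR G * C⁻¹.val = J m := by
    rw [← hC]
    exact Mx_cancel (J m) C
  have hcc : cj C (cj C⁻¹ (W G)) = W G := by
    rw [← cj_cj, inv_mul_cancel, cj_one]
  have hArith : IsArith (cj C⁻¹ (W G)) := by
    refine ⟨?_, G, C, hC, hiso, ?_, ?_⟩
    · rw [← hJ, ← cj_OR]
      exact cj_mono _ ((W_le G).trans inf_le_left)
    · rw [hcc, Subgroup.relIndex_eq_one.2 (W_le G)]
      exact one_ne_zero
    · rw [hcc]
      exact hidxW
  have hRefl : IsReflGroup (J m) (cj C⁻¹ (W G)) := by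
    have h1 := (isReflGroup_W G).cj C⁻¹
    rw [hJ] at h1
    exact h1
  have hΓ : Γ ≤ cj C⁻¹ (W G) := by
    have h1 : cj C⁻¹ (cj C Γ) = Γ := by
      rw [← cj_cj, mul_inv_cancel, cj_one]
    rw [← h1]
    exact cj_mono _ hle2
  have heq := hmax _ hArith hRefl hΓ
  refine ⟨?_, hidxW⟩
  rw [← heq, hcc]

private theorem Mx_le {G G₁ : Matrix (Fin n) (Fin n) ℤ} {PR : GL (Fin n) ℝ}
    (hPR : PR ∈ GLZ n) {c : ℝ} (hc : 0 < c) (hG : toR G₁ = c • (PR.valᵀ * toR G * PR.val)) :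
    cj PR (W G) ≤ W G₁ := by
  unfold cj W
  rw [MonoidHom.map_closure]
  apply Subgroup.closure_mono
  rintro _ ⟨g, ⟨hg, v, hv⟩, rfl⟩
  have e1 : (MulAut.conj PR⁻¹).toMonoidHom g = PR⁻¹ * g * PR := by simp
  rw [e1]
  refine ⟨⟨?_, ?_⟩, PR⁻¹.val *ᵥ v, ?_⟩
  · have h1 : PR⁻¹ * g * PR ∈ cj PR (OR (toR G)) := by
      rw [mem_cj]
      have : PR * (PR⁻¹ * g * PR) * PR⁻¹ = g := by group
      rw [this]
      exact hg.1
    rw [cj_OR] at h1
    rw [hG, OR_smul hc.ne']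
    exact h1
  · exact (GLZ n).mul_mem ((GLZ n).mul_mem ((GLZ n).inv_mem hPR) hg.2) hPR
  · rw [hG, isRefl_smul hc]
    exact hv.cj PR

/-- Transport of `W` under an integral isometry and a rescaling. -/
theorem W_congr {G G₁ : Matrix (Fin n) (Fin n) ℤ} {P : GL (Fin n) ℤ} {PR : GL (Fin n) ℝ}
    (hPR : PR.val = toR P.val) {c : ℝ} (hc : 0 < c) (hG : toR G₁ = c • toR (P.valᵀ * G * P.val)) :
    cj PR (W G) = W G₁ := by
  have hmem : PR ∈ GLZ n := mem_GLZ.2 ⟨P, hPR⟩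
  have hG' : toR G₁ = c • (PR.valᵀ * toR G * PR.val) := by
    rw [hG, hPR]
    congr 1
    ext i j
    simp [toR, Matrix.mul_apply]
  apply le_antisymm (Mx_le hmem hc hG')
  have hG2 : toR G = c⁻¹ • (PR⁻¹.valᵀ * toR G₁ * PR⁻¹.val) := by
    rw [hG', Matrix.mul_smul, Matrix.smul_mul, smul_smul, inv_mul_cancel₀ hc.ne', one_smul,
      Mx_cancel]
  have h1 := Mx_le (inv_mem hmem) (inv_pos.2 hc) hG2
  have h2 := cj_mono PR h1
  rw [← cj_cj, inv_mul_cancel, cj_one] at h2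
  exact h2

end Pool.Agent.RFL
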