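import Mathlib
import Pool.Agent.Lib.MP_dcc566_gt_P1.Mx
import Pool.Agent.Lib.MP_dcc566_gt.Defs

/-!
Comparison with the definition of reflective lattices by linear equivalences.
-/

set_option autoImplicit false

namespace Pool.Agent.RFL

open Matrix

variable {n : ℕ}

/-- Linear equivalences of `ℤⁿ` as integral matrices. -/
private def briE (n : ℕ) : ((Fin n → ℤ) ≃ₗ[ℤ] (Fin n → ℤ)) ≃* GL (Fin n) ℤ :=
  ((Matrix.GeneralLinearGroup.toLin (n := Fin n) (R := ℤ)).trans
    (LinearMap.GeneralLinearGroup.generalLinearEquiv ℤ (Fin n → ℤ))).symm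

private theorem briE_symm_apply (M : GL (Fin n) ℤ) (x : Fin n → ℤ) :
    (briE n).symm M x = M.val *ᵥ x := rfl

private theorem briE_apply (g : (Fin n → ℤ) ≃ₗ[ℤ] (Fin n → ℤ)) (x : Fin n → ℤ) :
    (briE n g).val *ᵥ x = g x := by
  rw [← briE_symm_apply, MulEquiv.symm_apply_apply]

private def briM (n : ℕ) : GL (Fin n) ℤ →* GL (Fin n) ℝ :=
  Matrix.GeneralLinearGroup.map (n := Fin n) (Int.castRingHom ℝ)

private theorem briM_val (M : GL (Fin n) ℤ) : (briM n M).val = toR M.val := rfl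

private theorem bri_toR_inj {A B : Matrix (Fin n) (Fin n) ℤ} (h : toR A = toR B) : A = B := by
  ext i j
  have := congrFun (congrFun h i) j
  simpa [toR] using this

private theorem briM_inj : Function.Injective (briM n) := by
  intro A B h
  ext1
  apply bri_toR_inj
  rw [← briM_val, ← briM_val, h]

private theorem bri_toR_mul (A B : Matrix (Fin n) (Fin n) ℤ) : toR (A * B) = toR A * toR B :=
  Matrix.map_mul (f := Int.castRingHom ℝ)

private theorem bri_toR_transpose (A : Matrix (Fin n) (Fin n) ℤ) : toR Aᵀ = (toR A)ᵀ := rfl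

private theorem bri_toR_mulVec (A : Matrix (Fin n) (Fin n) ℤ) (x : Fin n → ℤ) :
    toR A *ᵥ (fun i => (x i : ℝ)) = fun i => (((A *ᵥ x) i : ℤ) : ℝ) := by
  ext i
  simp [toR, mulVec, dotProduct]

private theorem bri_bl (G : Matrix (Fin n) (Fin n) ℤ) (x y : Fin n → ℤ) :
    bl (toR G) (fun i => (x i : ℝ)) (fun i => (y i : ℝ)) =
      ((_root_.MP_dcc566_gt.bf G x y : ℤ) : ℝ) := by
  rw [bl, bri_toR_mulVec]
  simp [_root_.MP_dcc566_gt.bf, dotProduct]

private theorem bri_iso {G : Matrix (Fin n) (Fin n) ℤ} (M : GL (Fin n) ℤ) :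
    (∀ x y : Fin n → ℤ, _root_.MP_dcc566_gt.bf G (M.val *ᵥ x) (M.val *ᵥ y) =
      _root_.MP_dcc566_gt.bf G x y) ↔ M.valᵀ * G * M.val = G := by
  have key : ∀ x y : Fin n → ℤ, _root_.MP_dcc566_gt.bf G (M.val *ᵥ x) (M.val *ᵥ y) =
      x ⬝ᵥ ((M.valᵀ * G * M.val) *ᵥ y) := by
    intro x y
    rw [_root_.MP_dcc566_gt.bf, Matrix.mul_assoc, ← mulVec_mulVec, dotProduct_mulVec x,
      vecMul_transpose, ← mulVec_mulVec]
  constructor
  · intro h
    ext i j
    have := h (Pi.single i 1) (Pi.single j 1)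
    rw [key, _root_.MP_dcc566_gt.bf] at this
    simpa using this
  · intro h x y
    rw [key, h, _root_.MP_dcc566_gt.bf]

private def briF (G : Matrix (Fin n) (Fin n) ℤ) : _root_.MP_dcc566_gt.isoGroup G →* GL (Fin n) ℝ :=
  (briM n).comp ((briE n).toMonoidHom.comp (_root_.MP_dcc566_gt.isoGroup G).subtype)

private theorem briF_inj (G : Matrix (Fin n) (Fin n) ℤ) : Function.Injective (briF G) := by
  intro a b h
  exact Subtype.ext ((briE n).injective (briM_inj h))

private theorem briF_val (G : Matrix (Fin n) (Fin n) ℤ) (g : _root_.MP_dcc566_gt.isoGroup G) :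
    (briF G g).val = toR (briE n g.1).val := rfl

private theorem briF_range (G : Matrix (Fin n) (Fin n) ℤ) : (briF G).range = OZ G := by
  ext g
  constructor
  · rintro ⟨a, rfl⟩
    refine ⟨?_, ⟨briE n a.1, rfl⟩⟩
    change (briF G a).valᵀ * toR G * (briF G a).val = toR G
    rw [briF_val, ← bri_toR_transpose, ← bri_toR_mul, ← bri_toR_mul]
    congr 1
    rw [← bri_iso]
    intro x y
    rw [briE_apply, briE_apply]
    exact a.2 x y
  · rintro ⟨h1, ⟨M, rfl⟩⟩
    have h2 : M.valᵀ * G * M.val = G := by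
      apply bri_toR_inj
      rw [bri_toR_mul, bri_toR_mul, bri_toR_transpose]
      exact h1
    rw [← bri_iso] at h2
    refine ⟨⟨(briE n).symm M, fun x y => h2 x y⟩, ?_⟩
    change briM n (briE n ((briE n).symm M)) = briM n M
    rw [MulEquiv.apply_symm_apply]

private theorem bri_refl_mp {G : Matrix (Fin n) (Fin n) ℤ} {g : (Fin n → ℤ) ≃ₗ[ℤ] (Fin n → ℤ)}
    {r : Fin n → ℤ} (h : _root_.MP_dcc566_gt.IsReflectionIn G g r) (x : Fin n → ℝ) :
    toR (briE n g).val *ᵥ x = x - (2 * bl (toR G) (fun i => (r i : ℝ)) x /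
      bl (toR G) (fun i => (r i : ℝ)) (fun i => (r i : ℝ))) • (fun i => (r i : ℝ)) := by
  have h0 : (0 : ℝ) < ((_root_.MP_dcc566_gt.bf G r r : ℤ) : ℝ) := by exact_mod_cast h.1
  have hm : ((_root_.MP_dcc566_gt.bf G r r : ℤ) : ℝ) • toR (briE n g).val =
      ((_root_.MP_dcc566_gt.bf G r r : ℤ) : ℝ) • (1 : Matrix (Fin n) (Fin n) ℝ) -
        (2 : ℝ) • vecMulVec (fun i => (r i : ℝ)) ((fun i => (r i : ℝ)) ᵥ* toR G) := by
    ext i j
    have h3 := congrFun (h.2 (Pi.single j 1)) i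
    rw [← briE_apply, mulVec_single_one] at h3
    have h4 : ((Pi.single j 1 : Fin n → ℤ) i) = (1 : Matrix (Fin n) (Fin n) ℤ) i j := by
      rw [Matrix.one_apply, Pi.single_apply]
    simp only [Pi.smul_apply, Pi.sub_apply, smul_eq_mul, Matrix.col_apply] at h3
    rw [h4] at h3
    have h5 : (((fun i => (r i : ℝ)) ᵥ* toR G) j) =
        ((_root_.MP_dcc566_gt.bf G r (Pi.single j 1) : ℤ) : ℝ) := by
      simp [_root_.MP_dcc566_gt.bf, vecMul, dotProduct, toR]
    simp only [Matrix.smul_apply, Matrix.sub_apply, vecMulVec_apply, h5, smul_eq_mul]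
    have h6 : (toR (briE n g).val) i j = (((briE n g).val i j : ℤ) : ℝ) := rfl
    have h7 : (1 : Matrix (Fin n) (Fin n) ℝ) i j =
        (((1 : Matrix (Fin n) (Fin n) ℤ) i j : ℤ) : ℝ) := by
      rw [Matrix.one_apply, Matrix.one_apply]
      split_ifs <;> simp
    rw [h6, h7]
    have h8 := congrArg (fun t : ℤ => (t : ℝ)) h3
    simp only [Int.cast_mul, Int.cast_sub, Int.cast_ofNat] at h8
    rw [h8]
    ring
  rw [bri_bl]
  have h9 := congrArg (fun A : Matrix (Fin n) (Fin n) ℝ => A *ᵥ x) hm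
  simp only [smul_mulVec, sub_mulVec, one_mulVec] at h9
  have h10 : vecMulVec (fun i => (r i : ℝ)) ((fun i => (r i : ℝ)) ᵥ* toR G) *ᵥ x =
      (bl (toR G) (fun i => (r i : ℝ)) x) • (fun i => (r i : ℝ)) := by
    rw [bl, dotProduct_mulVec]
    ext i
    simp only [mulVec, dotProduct, vecMulVec_apply, Pi.smul_apply, smul_eq_mul, Finset.sum_mul]
    refine Finset.sum_congr rfl fun j _ => ?_
    ring
  rw [h10] at h9
  have h11 : toR (briE n g).val *ᵥ x = ((_root_.MP_dcc566_gt.bf G r r : ℤ) : ℝ)⁻¹ •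
      (((_root_.MP_dcc566_gt.bf G r r : ℤ) : ℝ) • toR (briE n g).val *ᵥ x) := by
    rw [smul_smul, inv_mul_cancel₀ h0.ne', one_smul]
  rw [h11, h9, smul_sub, smul_smul, inv_mul_cancel₀ h0.ne', one_smul, smul_smul, smul_smul]
  congr 2
  field_simp

private theorem bri_refl_mpr {G : Matrix (Fin n) (Fin n) ℤ} (hs : G.IsSymm)
    {g : (Fin n → ℤ) ≃ₗ[ℤ] (Fin n → ℤ)} {v : Fin n → ℝ} (h0 : 0 < bl (toR G) v v)
    (h : ∀ x : Fin n → ℝ, toR (briE n g).val *ᵥ x =
      x - (2 * bl (toR G) v x / bl (toR G) v v) • v) :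
    ∃ r, _root_.MP_dcc566_gt.IsReflectionIn G g r := by
  have hsym : ∀ x y, bl (toR G) x y = bl (toR G) y x := by
    intro x y
    rw [bl, bl, dotProduct_mulVec, dotProduct_comm]
    congr 1
    have : (toR G)ᵀ = toR G := by rw [← bri_toR_transpose, hs]
    rw [← vecMul_transpose, this]
  obtain ⟨i, hi⟩ : ∃ i, bl (toR G) v (Pi.single i 1) ≠ 0 := by
    by_contra hc
    push Not at hc
    have : toR G *ᵥ v = 0 := by
      ext i
      have := hc i
      rw [hsym, bl] at this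
      simpa using this
    rw [bl, this, dotProduct_zero] at h0
    exact lt_irrefl _ h0
  have hsingle : (fun j => (((Pi.single i 1 : Fin n → ℤ) j : ℤ) : ℝ)) = Pi.single i 1 := by
    ext j
    rw [Pi.single_apply, Pi.single_apply]
    split_ifs <;> simp
  set c : ℝ := 2 * bl (toR G) v (Pi.single i 1) / bl (toR G) v v with hc
  have hc0 : c ≠ 0 := div_ne_zero (mul_ne_zero two_ne_zero hi) h0.ne'
  have hcast : ∀ x : Fin n → ℤ, (fun j => ((g x j : ℤ) : ℝ)) =
      (fun j => (x j : ℝ)) - (2 * bl (toR G) v (fun j => (x j : ℝ)) / bl (toR G) v v) • v := by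
    intro x
    rw [← h, bri_toR_mulVec, briE_apply]
  have hr : (fun j => (((Pi.single i 1 - g (Pi.single i 1) : Fin n → ℤ) j : ℤ) : ℝ)) = c • v := by
    have h1 := hcast (Pi.single i 1)
    rw [hsingle, ← hc] at h1
    ext j
    have h2 := congrFun h1 j
    have h3 := congrFun hsingle j
    simp only [Pi.sub_apply, Pi.smul_apply, Int.cast_sub] at h2 h3 ⊢
    rw [h2, h3]
    ring
  have hblc : ∀ (a b : ℝ) (x y : Fin n → ℝ),
      bl (toR G) (a • x) (b • y) = a * b * bl (toR G) x y := by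
    intro a b x y
    simp only [bl, smul_dotProduct, mulVec_smul, dotProduct_smul, smul_eq_mul]
    ring
  refine ⟨Pi.single i 1 - g (Pi.single i 1), ?_, ?_⟩
  · have h1 : (0 : ℝ) < ((_root_.MP_dcc566_gt.bf G (Pi.single i 1 - g (Pi.single i 1))
        (Pi.single i 1 - g (Pi.single i 1)) : ℤ) : ℝ) := by
      rw [← bri_bl, hr, hblc]
      exact mul_pos (mul_self_pos.2 hc0) h0
    exact_mod_cast h1
  · intro x
    have h1 : ((_root_.MP_dcc566_gt.bf G (Pi.single i 1 - g (Pi.single i 1))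
        (Pi.single i 1 - g (Pi.single i 1)) : ℤ) : ℝ) = c * c * bl (toR G) v v := by
      rw [← bri_bl, hr, hblc]
    have h2 : ((_root_.MP_dcc566_gt.bf G (Pi.single i 1 - g (Pi.single i 1)) x : ℤ) : ℝ) =
        c * bl (toR G) v (fun j => (x j : ℝ)) := by
      rw [← bri_bl, hr]
      have := hblc c 1 v (fun j => (x j : ℝ))
      rw [one_smul, mul_one] at this
      exact this
    ext j
    have h3 := congrFun (hcast x) j
    have h4 := congrFun hr j
    have h5 : (((_root_.MP_dcc566_gt.bf G (Pi.single i 1 - g (Pi.single i 1))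
        (Pi.single i 1 - g (Pi.single i 1)) • g x : Fin n → ℤ) j : ℤ) : ℝ) =
        (((_root_.MP_dcc566_gt.bf G (Pi.single i 1 - g (Pi.single i 1))
        (Pi.single i 1 - g (Pi.single i 1)) • x - (2 * _root_.MP_dcc566_gt.bf G
          (Pi.single i 1 - g (Pi.single i 1)) x) • (Pi.single i 1 - g (Pi.single i 1)) :
          Fin n → ℤ) j : ℤ) : ℝ) := by
      simp only [Pi.smul_apply, Pi.sub_apply, smul_eq_mul, Int.cast_mul, Int.cast_sub,
        Int.cast_ofNat] at h3 h4 ⊢
      rw [h1, h2, h3, h4]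
      field_simp
    exact_mod_cast h5

theorem reflective_of_relIndex {G : Matrix (Fin n) (Fin n) ℤ} (hs : G.IsSymm)
    (h : (W G).relIndex (OZ G) ≠ 0) : _root_.MP_dcc566_gt.Reflective G := by
  have h1 : (W G) = (_root_.MP_dcc566_gt.reflGroup G).map (briF G) := by
    rw [_root_.MP_dcc566_gt.reflGroup, MonoidHom.map_closure, W]
    congr 1
    ext g
    constructor
    · rintro ⟨hg, v, hv⟩
      rw [← briF_range] at hg
      obtain ⟨a, rfl⟩ := hg
      exact ⟨a, bri_refl_mpr hs hv.1 hv.2, rfl⟩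
    · rintro ⟨a, ⟨r, hr⟩, rfl⟩
      refine ⟨?_, (fun i => (r i : ℝ)), ?_⟩
      · rw [← briF_range]
        exact ⟨a, rfl⟩
      · refine ⟨?_, bri_refl_mp hr⟩
        rw [bri_bl]
        exact_mod_cast hr.1
  have h2 : _root_.MP_dcc566_gt.reflGroup G = (W G).comap (briF G) := by
    rw [h1, Subgroup.comap_map_eq_self_of_injective (briF_inj G)]
  unfold _root_.MP_dcc566_gt.Reflective
  constructor
  rw [h2, Subgroup.index_comap, briF_range]
  exact h

end Pool.Agent.RFL
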