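import Mathlib
import Pool.Agent.Lib.MP_dcc566_gt_P1.Defs

/-!
Eichler transvections.
-/

set_option autoImplicit false

namespace Pool.Agent.RFL

open Matrix

variable {n : ℕ}

/-- `x ↦ x + 2 (e,x) t - 2 (t,x) e - 2 (t,t) (e,x) e`. -/
def eich (G : Matrix (Fin n) (Fin n) ℤ) (e t : Fin n → ℤ) : Matrix (Fin n) (Fin n) ℤ :=
  1 + (2 : ℤ) • vecMulVec t (G *ᵥ e) - (2 : ℤ) • vecMulVec e (G *ᵥ t)
    - (2 * (t ⬝ᵥ (G *ᵥ t))) • vecMulVec e (G *ᵥ e)

/-- the bilinear form -/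
private def EichQ (G : Matrix (Fin n) (Fin n) ℤ) (x y : Fin n → ℤ) : ℤ := x ⬝ᵥ (G *ᵥ y)

private theorem EichQ_add_left (G : Matrix (Fin n) (Fin n) ℤ) (x x' y : Fin n → ℤ) :
    EichQ G (x + x') y = EichQ G x y + EichQ G x' y := by
  unfold EichQ
  rw [add_dotProduct]

private theorem EichQ_sub_left (G : Matrix (Fin n) (Fin n) ℤ) (x x' y : Fin n → ℤ) :
    EichQ G (x - x') y = EichQ G x y - EichQ G x' y := by
  unfold EichQ
  rw [sub_dotProduct]

private theorem EichQ_smul_left (G : Matrix (Fin n) (Fin n) ℤ) (a : ℤ) (x y : Fin n → ℤ) :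
    EichQ G (a • x) y = a * EichQ G x y := by
  unfold EichQ
  rw [smul_dotProduct, smul_eq_mul]

private theorem EichQ_add_right (G : Matrix (Fin n) (Fin n) ℤ) (x y y' : Fin n → ℤ) :
    EichQ G x (y + y') = EichQ G x y + EichQ G x y' := by
  unfold EichQ
  rw [mulVec_add, dotProduct_add]

private theorem EichQ_sub_right (G : Matrix (Fin n) (Fin n) ℤ) (x y y' : Fin n → ℤ) :
    EichQ G x (y - y') = EichQ G x y - EichQ G x y' := by
  unfold EichQ
  rw [mulVec_sub, dotProduct_sub]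

private theorem EichQ_smul_right (G : Matrix (Fin n) (Fin n) ℤ) (a : ℤ) (x y : Fin n → ℤ) :
    EichQ G x (a • y) = a * EichQ G x y := by
  unfold EichQ
  rw [mulVec_smul, dotProduct_smul, smul_eq_mul]

private theorem EichQ_symm {G : Matrix (Fin n) (Fin n) ℤ} (hs : G.IsSymm) (x y : Fin n → ℤ) :
    EichQ G x y = EichQ G y x := by
  unfold EichQ
  rw [dotProduct_mulVec, ← mulVec_transpose, hs.eq, dotProduct_comm]

private theorem Eich_mulVec {G : Matrix (Fin n) (Fin n) ℤ} (hs : G.IsSymm) (e t x : Fin n → ℤ) :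
    eich G e t *ᵥ x = x + (2 * EichQ G e x) • t - (2 * EichQ G t x) • e -
      (2 * EichQ G t t * EichQ G e x) • e := by
  have h : ∀ u : Fin n → ℤ, (G *ᵥ u) ⬝ᵥ x = EichQ G u x := by
    intro u
    rw [EichQ_symm hs, dotProduct_comm]
    rfl
  unfold eich
  rw [sub_mulVec, sub_mulVec, add_mulVec, one_mulVec, smul_mulVec, smul_mulVec, smul_mulVec,
    vecMulVec_mulVec, vecMulVec_mulVec, vecMulVec_mulVec, h, h]
  change _ + _ - _ - (2 * EichQ G t t) • _ = _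
  rw [op_smul_eq_smul, op_smul_eq_smul, op_smul_eq_smul, smul_smul, smul_smul, smul_smul]

theorem eich_mul {G : Matrix (Fin n) (Fin n) ℤ} (hs : G.IsSymm) {e t s : Fin n → ℤ}
    (he : e ⬝ᵥ (G *ᵥ e) = 0) (ht : e ⬝ᵥ (G *ᵥ t) = 0) (hs' : e ⬝ᵥ (G *ᵥ s) = 0) :
    eich G e t * eich G e s = eich G e (t + s) := by
  have he' : EichQ G e e = 0 := he
  have ht' : EichQ G e t = 0 := ht
  have hs'' : EichQ G e s = 0 := hs'
  have ht2 : EichQ G t e = 0 := by rw [EichQ_symm hs]; exact ht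
  have hs2 : EichQ G s e = 0 := by rw [EichQ_symm hs]; exact hs'
  rw [ext_iff_mulVec]
  intro x
  rw [← mulVec_mulVec, Eich_mulVec hs, Eich_mulVec hs, Eich_mulVec hs]
  simp only [EichQ_add_left, EichQ_add_right, EichQ_sub_right, EichQ_smul_right, he', hs'',
    ht2, EichQ_symm hs s t]
  ext i
  simp only [Pi.add_apply, Pi.sub_apply, Pi.smul_apply, smul_eq_mul]
  ring

theorem eich_isom {G : Matrix (Fin n) (Fin n) ℤ} (hs : G.IsSymm) {e t : Fin n → ℤ}
    (he : e ⬝ᵥ (G *ᵥ e) = 0) (ht : e ⬝ᵥ (G *ᵥ t) = 0) :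
    (eich G e t)ᵀ * G * eich G e t = G := by
  have he' : EichQ G e e = 0 := he
  have ht' : EichQ G e t = 0 := ht
  have ht2 : EichQ G t e = 0 := by rw [EichQ_symm hs]; exact ht
  have key : ∀ x y : Fin n → ℤ, EichQ G (eich G e t *ᵥ x) (eich G e t *ᵥ y) = EichQ G x y := by
    intro x y
    rw [Eich_mulVec hs, Eich_mulVec hs]
    simp only [EichQ_add_left, EichQ_add_right, EichQ_sub_right, EichQ_smul_right,
      EichQ_sub_left, EichQ_smul_left, he', ht', ht2, EichQ_symm hs x e, EichQ_symm hs x t]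
    ring
  rw [ext_iff_mulVec]
  intro y
  have h2 : ∀ x : Fin n → ℤ, x ⬝ᵥ (((eich G e t)ᵀ * G * eich G e t) *ᵥ y) = x ⬝ᵥ (G *ᵥ y) := by
    intro x
    have h3 := key x y
    unfold EichQ at h3
    rw [← h3, ← mulVec_mulVec, ← mulVec_mulVec, dotProduct_mulVec x, vecMul_transpose]
  exact dotProduct_eq _ _ fun x => by rw [dotProduct_comm, h2 x, dotProduct_comm]

private theorem Eich_zero (G : Matrix (Fin n) (Fin n) ℤ) (e : Fin n → ℤ) :
    eich G e 0 = 1 := by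
  unfold eich
  simp

private theorem Eich_pow {G : Matrix (Fin n) (Fin n) ℤ} (hs : G.IsSymm) {e t : Fin n → ℤ}
    (he : e ⬝ᵥ (G *ᵥ e) = 0) (ht : e ⬝ᵥ (G *ᵥ t) = 0) (k : ℕ) :
    eich G e t ^ k = eich G e ((k : ℤ) • t) := by
  induction k with
  | zero => rw [pow_zero, Nat.cast_zero, zero_smul, Eich_zero]
  | succ k ih =>
    rw [pow_succ, ih, eich_mul hs he _ ht]
    · congr 1
      rw [Nat.cast_succ, add_smul, one_smul]
    · rw [mulVec_smul, dotProduct_smul, ht, smul_zero]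

theorem exists_eich {G : Matrix (Fin n) (Fin n) ℤ} (hs : G.IsSymm) {e t : Fin n → ℤ}
    (he : e ⬝ᵥ (G *ᵥ e) = 0) (ht : e ⬝ᵥ (G *ᵥ t) = 0) :
    ∃ g : GL (Fin n) ℝ, g ∈ OZ G ∧
      ∀ k : ℕ, (g ^ k).val = (eich G e ((k : ℤ) • t)).map (Int.cast : ℤ → ℝ) := by
  have ht' : e ⬝ᵥ (G *ᵥ (-t)) = 0 := by rw [mulVec_neg, dotProduct_neg, ht, neg_zero]
  have h1 : eich G e t * eich G e (-t) = 1 := by
    rw [eich_mul hs he ht ht', add_neg_cancel, Eich_zero]
  have h2 : eich G e (-t) * eich G e t = 1 := by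
    rw [eich_mul hs he ht' ht, neg_add_cancel, Eich_zero]
  let M : GL (Fin n) ℤ := ⟨eich G e t, eich G e (-t), h1, h2⟩
  have hval : (Matrix.GeneralLinearGroup.map (n := Fin n) (Int.castRingHom ℝ) M).val =
      (eich G e t).map (Int.cast : ℤ → ℝ) := rfl
  refine ⟨Matrix.GeneralLinearGroup.map (n := Fin n) (Int.castRingHom ℝ) M, ⟨?_, M, rfl⟩, ?_⟩
  · refine mem_OR.2 ?_
    rw [hval]
    have h3 := congrArg (fun A : Matrix (Fin n) (Fin n) ℤ => A.map (Int.castRingHom ℝ))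
      (eich_isom hs he ht)
    simp only [Matrix.map_mul, transpose_map] at h3
    exact h3
  · intro k
    rw [← map_pow]
    have h3 : ((M ^ k : GL (Fin n) ℤ)).val = eich G e ((k : ℤ) • t) := by
      rw [Units.val_pow_eq_pow_val]
      exact Eich_pow hs he ht k
    rw [← h3]
    rfl

end Pool.Agent.RFL
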