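import Mathlib
import Pool.Agent.Lib.MP_dcc566_gt_P1.Defs

/-!
Rational matrices and the algebra `{X rational | g X g⁻¹ rational}`.
-/

set_option autoImplicit false

namespace Pool.Agent.RFL

open Matrix

variable {n : ℕ}

/-- The real matrix has rational entries. -/
def IsRat (X : Matrix (Fin n) (Fin n) ℝ) : Prop :=
  ∃ Y : Matrix (Fin n) (Fin n) ℚ, X = Y.map (Rat.cast : ℚ → ℝ)

theorem isRat_iff {X : Matrix (Fin n) (Fin n) ℝ} : IsRat X ↔ ∀ i j, ∃ q : ℚ, X i j = q := by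
  constructor
  · rintro ⟨Y, rfl⟩ i j
    exact ⟨Y i j, rfl⟩
  · intro h
    choose f hf using h
    refine ⟨Matrix.of f, ?_⟩
    ext i j
    exact hf i j

theorem IsRat.add {X Y : Matrix (Fin n) (Fin n) ℝ} (hX : IsRat X) (hY : IsRat Y) :
    IsRat (X + Y) := by
  obtain ⟨A, rfl⟩ := hX
  obtain ⟨B, rfl⟩ := hY
  refine ⟨A + B, ?_⟩
  ext i j
  simp

theorem IsRat.sub {X Y : Matrix (Fin n) (Fin n) ℝ} (hX : IsRat X) (hY : IsRat Y) :
    IsRat (X - Y) := by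
  obtain ⟨A, rfl⟩ := hX
  obtain ⟨B, rfl⟩ := hY
  refine ⟨A - B, ?_⟩
  ext i j
  simp

theorem IsRat.mul {X Y : Matrix (Fin n) (Fin n) ℝ} (hX : IsRat X) (hY : IsRat Y) :
    IsRat (X * Y) := by
  obtain ⟨A, rfl⟩ := hX
  obtain ⟨B, rfl⟩ := hY
  refine ⟨A * B, ?_⟩
  ext i j
  simp [Matrix.mul_apply]

theorem IsRat.smul {X : Matrix (Fin n) (Fin n) ℝ} (hX : IsRat X) (q : ℚ) :
    IsRat ((q : ℝ) • X) := by
  obtain ⟨A, rfl⟩ := hX
  refine ⟨q • A, ?_⟩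
  ext i j
  simp

theorem isRat_one : IsRat (1 : Matrix (Fin n) (Fin n) ℝ) := by
  refine ⟨1, ?_⟩
  ext i j
  by_cases h : i = j
  · subst h
    simp
  · simp [h]

theorem isRat_int (M : Matrix (Fin n) (Fin n) ℤ) : IsRat (M.map (Int.cast : ℤ → ℝ)) := by
  refine ⟨M.map (Int.cast : ℤ → ℚ), ?_⟩
  ext i j
  simp

theorem isRat_of_mem_GLZ {g : GL (Fin n) ℝ} (hg : g ∈ GLZ n) : IsRat g.val := by
  obtain ⟨M, hM⟩ := mem_GLZ.1 hg
  rw [hM]
  exact isRat_int _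

/-- `X` is rational and stays rational after conjugation by `g`. -/
def RA (g : GL (Fin n) ℝ) (X : Matrix (Fin n) (Fin n) ℝ) : Prop :=
  IsRat X ∧ IsRat (g.val * X * g⁻¹.val)

theorem RA.add {g : GL (Fin n) ℝ} {X Y : Matrix (Fin n) (Fin n) ℝ} (hX : RA g X) (hY : RA g Y) :
    RA g (X + Y) := by
  refine ⟨hX.1.add hY.1, ?_⟩
  rw [Matrix.mul_add, Matrix.add_mul]
  exact hX.2.add hY.2

theorem RA.sub {g : GL (Fin n) ℝ} {X Y : Matrix (Fin n) (Fin n) ℝ} (hX : RA g X) (hY : RA g Y) :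
    RA g (X - Y) := by
  refine ⟨hX.1.sub hY.1, ?_⟩
  rw [Matrix.mul_sub, Matrix.sub_mul]
  exact hX.2.sub hY.2

theorem RA.mul {g : GL (Fin n) ℝ} {X Y : Matrix (Fin n) (Fin n) ℝ} (hX : RA g X) (hY : RA g Y) :
    RA g (X * Y) := by
  refine ⟨hX.1.mul hY.1, ?_⟩
  have h1 : g⁻¹.val * g.val = 1 := by
    rw [← Units.val_mul, inv_mul_cancel, Units.val_one]
  have h2 : g.val * (X * Y) * g⁻¹.val = (g.val * X * g⁻¹.val) * (g.val * Y * g⁻¹.val) := by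
    calc g.val * (X * Y) * g⁻¹.val = g.val * X * 1 * Y * g⁻¹.val := by
          simp only [Matrix.mul_assoc, Matrix.one_mul]
      _ = g.val * X * (g⁻¹.val * g.val) * Y * g⁻¹.val := by rw [h1]
      _ = _ := by simp only [Matrix.mul_assoc]
  rw [h2]
  exact hX.2.mul hY.2

theorem RA.smul {g : GL (Fin n) ℝ} {X : Matrix (Fin n) (Fin n) ℝ} (hX : RA g X) (q : ℚ) :
    RA g ((q : ℝ) • X) := by
  refine ⟨hX.1.smul q, ?_⟩
  rw [Matrix.mul_smul, Matrix.smul_mul]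
  exact hX.2.smul q

theorem RA_one (g : GL (Fin n) ℝ) : RA g 1 := by
  refine ⟨isRat_one, ?_⟩
  rw [Matrix.mul_one, ← Units.val_mul, mul_inv_cancel, Units.val_one]
  exact isRat_one

end Pool.Agent.RFL
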