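import Mathlib
import Pool.Agent.Lib.MP_dcc566_gt_P1.RatM
import Pool.Agent.Lib.MP_dcc566_gt_P1.Eich
import Pool.Agent.Lib.MP_dcc566_gt_P1.Lor

/-!
The commensurator algebra contains `e ⊗ e` for isotropic `e`.
-/

set_option autoImplicit false

namespace Pool.Agent.RFL

open Matrix

private theorem AlgA_eich {n : ℕ} (G : Matrix (Fin n) (Fin n) ℤ) (e t : Fin n → ℤ) (r : ℤ)
    (i j : Fin n) : eich G e (r • t) i j = (1 : Matrix (Fin n) (Fin n) ℤ) i j +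
      2 * r * (t i * (G *ᵥ e) j) - 2 * r * (e i * (G *ᵥ t) j) -
        2 * r ^ 2 * (t ⬝ᵥ (G *ᵥ t)) * (e i * (G *ᵥ e) j) := by
  unfold eich
  rw [mulVec_smul, dotProduct_smul, smul_dotProduct]
  simp only [Matrix.sub_apply, Matrix.add_apply, Matrix.smul_apply, vecMulVec_apply,
    Pi.smul_apply, smul_eq_mul]
  ring

variable {m : ℕ} {G : Matrix (Fin (m + 1)) (Fin (m + 1)) ℤ} {C : GL (Fin (m + 1)) ℝ}

theorem RA_isotropic (hm : 2 ≤ m) (h : C.valᵀ * J m * C.val = toR G) {g : GL (Fin (m + 1)) ℝ}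
    (hg : ∀ h ∈ OZ G, ∃ k : ℕ, 0 < k ∧ ∀ j : ℕ, IsRat (g * (h ^ k) ^ j * g⁻¹).val)
    {e : Fin (m + 1) → ℤ} (he : e ≠ 0) (hee : e ⬝ᵥ (G *ᵥ e) = 0) :
    RA g ((vecMulVec e (G *ᵥ e)).map (Int.cast : ℤ → ℝ)) := by
  obtain ⟨t, het, htt⟩ := exists_perp hm h he hee
  obtain ⟨h0, hh0, hpow⟩ := exists_eich (isSymm_of_model h) hee het
  obtain ⟨k, hk, hj⟩ := hg h0 hh0
  have hX : ∀ j : ℕ, RA g ((eich G e (((k * j : ℕ) : ℤ) • t)).map (Int.cast : ℤ → ℝ)) := by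
    intro j
    refine ⟨isRat_int _, ?_⟩
    have h1 := hj j
    rw [← pow_mul, Units.val_mul, Units.val_mul, hpow] at h1
    exact h1
  have h1 := hX 1
  have h2 := hX 2
  have h3 := (h2.sub h1).sub (h1.sub (RA_one g))
  obtain ⟨T, hT⟩ : ∃ T : ℤ, T = t ⬝ᵥ (G *ᵥ t) := ⟨_, rfl⟩
  rw [← hT] at htt
  have hT0 : (T : ℝ) ≠ 0 := by exact_mod_cast htt.ne'
  have hk0 : (k : ℝ) ≠ 0 := by exact_mod_cast hk.ne'
  have h4 := h3.smul (-4 * (k : ℚ) ^ 2 * (T : ℚ))⁻¹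
  convert! h4 using 1
  ext i j
  simp only [Matrix.map_apply, Matrix.smul_apply, Matrix.sub_apply, AlgA_eich, smul_eq_mul,
    vecMulVec_apply]
  rw [← hT]
  push_cast
  have e1 : ((1 : Matrix (Fin (m + 1)) (Fin (m + 1)) ℤ) i j : ℝ) =
      (1 : Matrix (Fin (m + 1)) (Fin (m + 1)) ℝ) i j := by
    rw [one_apply, one_apply]
    split_ifs <;> simp
  rw [e1]
  field_simp
  ring

end Pool.Agent.RFL
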