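import Mathlib
import Pool.Agent.Lib.MP_dcc566_gt_P1.AlgA

/-!
The commensurator algebra contains all rational matrices.
-/

set_option autoImplicit false

namespace Pool.Agent.RFL

open Matrix

variable {m : ℕ} {G : Matrix (Fin (m + 1)) (Fin (m + 1)) ℤ} {C : GL (Fin (m + 1)) ℝ}

private def AlgB_A (G : Matrix (Fin (m + 1)) (Fin (m + 1)) ℤ) (x y : Fin (m + 1) → ℤ) :
    Matrix (Fin (m + 1)) (Fin (m + 1)) ℝ := (vecMulVec x (G *ᵥ y)).map (Int.cast : ℤ → ℝ)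

private theorem AlgB_apply (x y : Fin (m + 1) → ℤ) (i j : Fin (m + 1)) :
    AlgB_A G x y i j = (x i : ℝ) * ((G *ᵥ y) j : ℝ) := by
  unfold AlgB_A
  rw [Matrix.map_apply, vecMulVec_apply, Int.cast_mul]

private theorem AlgB_sub_left (a b : ℤ) (x x' y : Fin (m + 1) → ℤ) :
    AlgB_A G (a • x + b • x') y = (a : ℝ) • AlgB_A G x y + (b : ℝ) • AlgB_A G x' y := by
  ext i j
  rw [Matrix.add_apply, Matrix.smul_apply, Matrix.smul_apply, AlgB_apply, AlgB_apply, AlgB_apply]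
  simp only [Pi.add_apply, Pi.smul_apply, smul_eq_mul]
  push_cast
  ring

private theorem AlgB_sub_right (a b : ℤ) (x y y' : Fin (m + 1) → ℤ) :
    AlgB_A G x (a • y + b • y') = (a : ℝ) • AlgB_A G x y + (b : ℝ) • AlgB_A G x y' := by
  ext i j
  rw [Matrix.add_apply, Matrix.smul_apply, Matrix.smul_apply, AlgB_apply, AlgB_apply, AlgB_apply,
    mulVec_add, mulVec_smul, mulVec_smul]
  simp only [Pi.add_apply, Pi.smul_apply, smul_eq_mul]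
  push_cast
  ring

private theorem AlgB_comm (hG : G.IsSymm) (x y : Fin (m + 1) → ℤ) :
    x ⬝ᵥ (G *ᵥ y) = y ⬝ᵥ (G *ᵥ x) := by
  rw [dotProduct_mulVec, ← mulVec_transpose, hG.eq, dotProduct_comm]

private theorem AlgB_mul (hG : G.IsSymm) (x y x' y' : Fin (m + 1) → ℤ) :
    AlgB_A G x y * AlgB_A G x' y' = ((y ⬝ᵥ (G *ᵥ x') : ℤ) : ℝ) • AlgB_A G x y' := by
  ext i j
  rw [Matrix.mul_apply, Matrix.smul_apply, AlgB_apply, AlgB_comm hG y x', dotProduct]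
  simp only [AlgB_apply]
  push_cast
  rw [smul_eq_mul, Finset.sum_mul]
  refine Finset.sum_congr rfl fun t _ => ?_
  ring

private theorem AlgB_RA_zero (g : GL (Fin (m + 1)) ℝ) : RA g 0 := by
  have h := RA.sub (RA_one g) (RA_one g)
  rwa [sub_self] at h

private theorem AlgB_cancel {g : GL (Fin (m + 1)) ℝ}
    {X : Matrix (Fin (m + 1)) (Fin (m + 1)) ℝ} {a : ℤ} (ha : a ≠ 0) (h : RA g ((a : ℝ) • X)) :
    RA g X := by
  have h1 := h.smul ((a : ℚ)⁻¹)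
  have h2 : (a : ℝ) ≠ 0 := Int.cast_ne_zero.2 ha
  rw [smul_smul] at h1
  push_cast at h1
  rwa [inv_mul_cancel₀ h2, one_smul] at h1

private theorem AlgB_lin {g : GL (Fin (m + 1)) ℝ}
    {X Y : Matrix (Fin (m + 1)) (Fin (m + 1)) ℝ} (a b : ℤ) (hX : RA g X) (hY : RA g Y) :
    RA g ((a : ℝ) • X + (b : ℝ) • Y) := by
  have h1 := hX.smul (a : ℚ)
  have h2 := hY.smul (b : ℚ)
  push_cast at h1 h2
  exact h1.add h2

theorem RA_vecMulVec (h : C.valᵀ * J m * C.val = toR G)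
    (hiso : ∃ e : Fin (m + 1) → ℤ, e ≠ 0 ∧ e ⬝ᵥ (G *ᵥ e) = 0) {g : GL (Fin (m + 1)) ℝ}
    (hg : ∀ e : Fin (m + 1) → ℤ, e ≠ 0 → e ⬝ᵥ (G *ᵥ e) = 0 →
      RA g ((vecMulVec e (G *ᵥ e)).map (Int.cast : ℤ → ℝ))) (x y : Fin (m + 1) → ℤ) :
    RA g ((vecMulVec x (G *ᵥ y)).map (Int.cast : ℤ → ℝ)) := by
  have hG : G.IsSymm := isSymm_of_model h
  have hdet : G.det ≠ 0 := det_ne_zero_of_model h
  obtain ⟨e0, he0, hee0⟩ := hiso
  have hg' : ∀ e : Fin (m + 1) → ℤ, e ⬝ᵥ (G *ᵥ e) = 0 → RA g (AlgB_A G e e) := by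
    intro e he
    by_cases h0 : e = 0
    · have : AlgB_A G e e = 0 := by
        ext i j
        rw [AlgB_apply, h0]
        simp
      rw [this]
      exact AlgB_RA_zero g
    · exact hg e h0 he
  -- two isotropic vectors
  have h1 : ∀ e e' : Fin (m + 1) → ℤ, e ⬝ᵥ (G *ᵥ e) = 0 → e' ⬝ᵥ (G *ᵥ e') = 0 →
      e ⬝ᵥ (G *ᵥ e') ≠ 0 → RA g (AlgB_A G e e') := by
    intro e e' he he' hne
    have h2 := (hg' e he).mul (hg' e' he')
    rw [AlgB_mul hG] at h2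
    exact AlgB_cancel hne h2
  have hlin : ∀ (a b : ℤ) (x y z : Fin (m + 1) → ℤ),
      (a • x + b • y) ⬝ᵥ (G *ᵥ z) = a * (x ⬝ᵥ (G *ᵥ z)) + b * (y ⬝ᵥ (G *ᵥ z)) := by
    intro a b x y z
    rw [add_dotProduct, smul_dotProduct, smul_dotProduct, smul_eq_mul, smul_eq_mul]
  have hlin' : ∀ (a b : ℤ) (x y z : Fin (m + 1) → ℤ),
      z ⬝ᵥ (G *ᵥ (a • x + b • y)) = a * (z ⬝ᵥ (G *ᵥ x)) + b * (z ⬝ᵥ (G *ᵥ y)) := by
    intro a b x y z
    rw [mulVec_add, mulVec_smul, mulVec_smul, dotProduct_add, dotProduct_smul, dotProduct_smul,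
      smul_eq_mul, smul_eq_mul]
  -- the isotropic vector of the plane of `x` and `e0`
  have hrefl : ∀ x : Fin (m + 1) → ℤ, x ⬝ᵥ (G *ᵥ e0) ≠ 0 → ∀ x' : Fin (m + 1) → ℤ,
      x' = (2 * (x ⬝ᵥ (G *ᵥ e0))) • x + (-(x ⬝ᵥ (G *ᵥ x))) • e0 →
      x' ⬝ᵥ (G *ᵥ x') = 0 ∧ x' ⬝ᵥ (G *ᵥ e0) ≠ 0 := by
    intro x hx x' hx'
    constructor
    · rw [hx', hlin, hlin', hlin', hee0, AlgB_comm hG e0 x]
      ring
    · rw [hx', hlin, hee0]
      have : 2 * (x ⬝ᵥ (G *ᵥ e0)) * (x ⬝ᵥ (G *ᵥ e0)) + -(x ⬝ᵥ (G *ᵥ x)) * 0 =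
          2 * (x ⬝ᵥ (G *ᵥ e0)) * (x ⬝ᵥ (G *ᵥ e0)) := by ring
      rw [this]
      exact mul_ne_zero (mul_ne_zero two_ne_zero hx) hx
  have h2 : ∀ x : Fin (m + 1) → ℤ, x ⬝ᵥ (G *ᵥ e0) ≠ 0 →
      RA g (AlgB_A G x e0) ∧ RA g (AlgB_A G e0 x) := by
    intro x hx
    obtain ⟨h3, h4⟩ := hrefl x hx _ rfl
    have hne : 2 * (x ⬝ᵥ (G *ᵥ e0)) ≠ 0 := mul_ne_zero two_ne_zero hx
    constructor
    · have h5 := h1 _ e0 h3 hee0 h4
      rw [AlgB_sub_left] at h5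
      have h6 := AlgB_lin 1 (x ⬝ᵥ (G *ᵥ x)) h5 (hg' e0 hee0)
      refine AlgB_cancel hne ?_
      convert h6 using 1
      rw [Int.cast_one, one_smul, Int.cast_neg, neg_smul]
      abel
    · have h4' : e0 ⬝ᵥ (G *ᵥ ((2 * (x ⬝ᵥ (G *ᵥ e0))) • x + (-(x ⬝ᵥ (G *ᵥ x))) • e0)) ≠ 0 := by
        rw [AlgB_comm hG]
        exact h4
      have h5 := h1 e0 _ hee0 h3 h4'
      rw [AlgB_sub_right] at h5
      have h6 := AlgB_lin 1 (x ⬝ᵥ (G *ᵥ x)) h5 (hg' e0 hee0)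
      refine AlgB_cancel hne ?_
      convert h6 using 1
      rw [Int.cast_one, one_smul, Int.cast_neg, neg_smul]
      abel
  -- a vector which is not orthogonal to `e0`
  obtain ⟨x0, hx0⟩ : ∃ x0 : Fin (m + 1) → ℤ, x0 ⬝ᵥ (G *ᵥ e0) ≠ 0 := by
    by_contra hcon
    push Not at hcon
    apply he0
    apply Matrix.eq_zero_of_mulVec_eq_zero hdet
    funext i
    have h3 := hcon (Pi.single i 1)
    rw [single_one_dotProduct] at h3
    rw [h3]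
    rfl
  obtain ⟨e1, he1⟩ : ∃ e1 : Fin (m + 1) → ℤ,
      e1 = (2 * (x0 ⬝ᵥ (G *ᵥ e0))) • x0 + (-(x0 ⬝ᵥ (G *ᵥ x0))) • e0 := ⟨_, rfl⟩
  obtain ⟨h11, h10⟩ := hrefl x0 hx0 e1 he1
  have h3 : ∀ x : Fin (m + 1) → ℤ, RA g (AlgB_A G x e0) ∧ RA g (AlgB_A G e0 x) := by
    intro x
    by_cases hx : x ⬝ᵥ (G *ᵥ e0) = 0
    · have h4 : ((1 : ℤ) • x + (1 : ℤ) • e1) ⬝ᵥ (G *ᵥ e0) ≠ 0 := by
        rw [hlin, hx]
        simpa using h10
      have h5 := h2 _ h4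
      have h6 := h2 e1 h10
      constructor
      · have h7 := AlgB_lin 1 (-1) h5.1 h6.1
        rw [AlgB_sub_left] at h7
        convert h7 using 1
        push_cast
        simp
      · have h7 := AlgB_lin 1 (-1) h5.2 h6.2
        rw [AlgB_sub_right] at h7
        convert h7 using 1
        push_cast
        simp
    · exact h2 x hx
  have h4 := ((h3 x).1.mul (hg' e1 h11)).mul (h3 y).2
  rw [AlgB_mul hG, Matrix.smul_mul, AlgB_mul hG] at h4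
  have h01 : e0 ⬝ᵥ (G *ᵥ e1) ≠ 0 := by
    rw [AlgB_comm hG]
    exact h10
  exact AlgB_cancel h10 (AlgB_cancel h01 h4)

private theorem AlgB_RA_sum {ι : Type} (g : GL (Fin (m + 1)) ℝ) (s : Finset ι)
    (f : ι → Matrix (Fin (m + 1)) (Fin (m + 1)) ℝ) (hf : ∀ i ∈ s, RA g (f i)) :
    RA g (∑ i ∈ s, f i) := by
  classical
  induction s using Finset.induction_on with
  | empty =>
    rw [Finset.sum_empty]
    exact AlgB_RA_zero g
  | insert a s ha ih =>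
    rw [Finset.sum_insert ha]
    exact (hf a (Finset.mem_insert_self a s)).add
      (ih fun i hi => hf i (Finset.mem_insert_of_mem hi))

theorem RA_all (h : C.valᵀ * J m * C.val = toR G)
    (hiso : ∃ e : Fin (m + 1) → ℤ, e ≠ 0 ∧ e ⬝ᵥ (G *ᵥ e) = 0) {g : GL (Fin (m + 1)) ℝ}
    (hg : ∀ e : Fin (m + 1) → ℤ, e ≠ 0 → e ⬝ᵥ (G *ᵥ e) = 0 →
      RA g ((vecMulVec e (G *ᵥ e)).map (Int.cast : ℤ → ℝ)))
    (Y : Matrix (Fin (m + 1)) (Fin (m + 1)) ℚ) :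
    IsRat (g.val * Y.map (Rat.cast : ℚ → ℝ) * g⁻¹.val) := by
  have hdet : G.det ≠ 0 := det_ne_zero_of_model h
  have h1 : ∀ i j : Fin (m + 1), RA g (Matrix.single i j (1 : ℝ)) := by
    intro i j
    have h2 := RA_vecMulVec h hiso hg (Pi.single i 1) (G.adjugate *ᵥ Pi.single j 1)
    refine AlgB_cancel hdet ?_
    convert h2 using 1
    ext a b
    rw [Matrix.map_apply, vecMulVec_apply, mulVec_mulVec, mul_adjugate, smul_mulVec,
      one_mulVec, Matrix.smul_apply, Pi.smul_apply, smul_eq_mul, smul_eq_mul,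
      Matrix.single_apply]
    by_cases ha : i = a
    · by_cases hb : j = b
      · subst ha
        subst hb
        simp
      · subst ha
        simp [hb, Pi.single_apply, Ne.symm hb, eq_comm]
    · simp [ha, Pi.single_apply, Ne.symm ha, eq_comm]
  have h2 : RA g (Y.map (Rat.cast : ℚ → ℝ)) := by
    rw [matrix_eq_sum_single (Y.map (Rat.cast : ℚ → ℝ))]
    refine AlgB_RA_sum g _ _ fun i _ => AlgB_RA_sum g _ _ fun j _ => ?_
    have h3 := (h1 i j).smul (Y i j)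
    rwa [Matrix.smul_single, smul_eq_mul, mul_one] at h3
  exact h2.2

end Pool.Agent.RFL
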