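import Mathlib
import Pool.Agent.Lib.MP_dcc566_gt_P1.RatM
import Pool.Agent.Lib.MP_dcc566_gt_P1.Cj

/-!
A reflection normalising the rational matrices is rational.
-/

set_option autoImplicit false

namespace Pool.Agent.RFL

open Matrix

variable {n : ℕ} {B : Matrix (Fin n) (Fin n) ℝ} {g : GL (Fin n) ℝ} {v : Fin n → ℝ}

private theorem RatR_bl (x : Fin n → ℝ) :
    bl B v x = ∑ i, bl B v (Pi.single i 1) * x i := by
  have h1 : ∀ y : Fin n → ℝ, bl B v y = (v ᵥ* B) ⬝ᵥ y := by
    intro y
    unfold bl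
    rw [Matrix.dotProduct_mulVec]
  rw [h1]
  simp only [h1, dotProduct_single_one]
  rfl

theorem IsRefl.trace (hr : IsRefl B g v) : g.val.trace = (n : ℝ) - 2 := by
  obtain ⟨h0, h⟩ := hr
  have h1 : ∀ i : Fin n, g.val i i =
      1 - 2 / bl B v v * (bl B v (Pi.single i 1) * v i) := by
    intro i
    have h2 := congrFun (h (Pi.single i 1)) i
    rw [Matrix.mulVec_single_one] at h2
    simp only [Matrix.col_apply, Pi.sub_apply, Pi.single_eq_same, Pi.smul_apply,
      smul_eq_mul] at h2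
    rw [h2]
    ring
  unfold Matrix.trace
  simp only [Matrix.diag_apply, h1, Finset.sum_sub_distrib, Finset.sum_const, Finset.card_univ,
    Fintype.card_fin, ← Finset.mul_sum, ← RatR_bl v]
  rw [div_mul_cancel₀ _ h0.ne']
  simp

theorem IsRefl.inv_eq (hr : IsRefl B g v) : g⁻¹ = g := by
  obtain ⟨h0, h⟩ := hr
  refine inv_eq_of_mul_eq_one_left ?_
  refine Units.ext (Matrix.mulVec_injective (funext fun x => ?_))
  rw [Units.val_mul, Units.val_one, ← Matrix.mulVec_mulVec, Matrix.one_mulVec, h (g.val *ᵥ x)]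
  have h1 : bl B v (g.val *ᵥ x) = - bl B v x := by
    rw [h x]
    have h2 : bl B v (x - (2 * bl B v x / bl B v v) • v) =
        bl B v x - (2 * bl B v x / bl B v v) * bl B v v := by
      unfold bl
      rw [Matrix.mulVec_sub, Matrix.mulVec_smul, dotProduct_sub, dotProduct_smul, smul_eq_mul]
    rw [h2, div_mul_cancel₀ _ h0.ne']
    ring
  rw [h1, h x]
  have h3 : 2 * -bl B v x / bl B v v = -(2 * bl B v x / bl B v v) := by
    ring
  rw [h3, neg_smul]
  abel

theorem isRat_of_refl (hn : 3 ≤ n) (hr : IsRefl B g v)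
    (h : ∀ Y : Matrix (Fin n) (Fin n) ℚ,
      IsRat (g.val * Y.map (Rat.cast : ℚ → ℝ) * g⁻¹.val)) : IsRat g.val := by
  rw [isRat_iff]
  intro j l
  have h1 : ∀ i : Fin n, ∃ q : ℚ, g.val i i * g.val j l = q := by
    intro i
    obtain ⟨q, hq⟩ := isRat_iff.1 (h (Matrix.single i j 1)) i l
    refine ⟨q, ?_⟩
    have e : (Matrix.single i j (1 : ℚ)).map (Rat.cast : ℚ → ℝ) =
        Matrix.single i j (1 : ℝ) := by
      ext a b
      simp only [Matrix.map_apply, Matrix.single_apply]
      split_ifs <;> simp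
    rw [← hq, hr.inv_eq, e, Matrix.mul_assoc, Matrix.mul_apply]
    have h2 : ∀ x : Fin n, (Matrix.single i j (1 : ℝ) * g.val) x l =
        if i = x then g.val j l else 0 := by
      intro x
      split_ifs with h3
      · subst h3
        simp
      · rw [Matrix.single_mul_apply_of_ne _ _ _ _ _ (Ne.symm h3)]
    simp only [h2, mul_ite, mul_zero, Finset.sum_ite_eq, Finset.mem_univ, if_true]
  choose q hq using h1
  have h4 : ((n : ℝ) - 2) * g.val j l = ∑ i, (q i : ℝ) := by
    rw [← hr.trace]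
    unfold Matrix.trace
    rw [Finset.sum_mul]
    exact Finset.sum_congr rfl fun i _ => hq i
  have h5 : (n : ℝ) - 2 ≠ 0 := by
    have h6 : (3 : ℝ) ≤ n := by exact_mod_cast hn
    intro h7
    linarith
  refine ⟨(∑ i, q i) / ((n : ℚ) - 2), ?_⟩
  push_cast
  rw [eq_div_iff h5, mul_comm]
  exact h4

end Pool.Agent.RFL
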