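import Mathlib
import Pool.Agent.Lib.MP_dcc566_gt_P1.AlgB
import Pool.Agent.Lib.MP_dcc566_gt_P1.RatR

/-!
Commensurable reflection groups consist of rational matrices.
-/

set_option autoImplicit false

namespace Pool.Agent.RFL

open Matrix

variable {m : ℕ} {G : Matrix (Fin (m + 1)) (Fin (m + 1)) ℤ} {C : GL (Fin (m + 1)) ℝ}

theorem isRat_of_mem (hm : 2 ≤ m) (h : C.valᵀ * J m * C.val = toR G)
    (hiso : ∃ e : Fin (m + 1) → ℤ, e ≠ 0 ∧ e ⬝ᵥ (G *ᵥ e) = 0)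
    {Γ : Subgroup (GL (Fin (m + 1)) ℝ)} (hr : IsReflGroup (toR G) Γ)
    (h1 : (OZ G).relIndex Γ ≠ 0) (h2 : Γ.relIndex (OZ G) ≠ 0) : ∀ g ∈ Γ, IsRat g.val := by
  have key : ∀ g ∈ Γ, (∃ v, IsRefl (toR G) g v) → IsRat g.val := by
    rintro g hg ⟨v, hv⟩
    have hgh : ∀ x ∈ OZ G, ∃ k : ℕ, 0 < k ∧ ∀ j : ℕ, IsRat (g * (x ^ k) ^ j * g⁻¹).val := by
      intro x hx
      obtain ⟨a, ha, -, ham⟩ := Subgroup.exists_pow_mem_of_relIndex_ne_zero h2 hx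
      have hgm : g * x ^ a * g⁻¹ ∈ Γ := Γ.mul_mem (Γ.mul_mem hg ham.1) (Γ.inv_mem hg)
      obtain ⟨b, hb, -, hbm⟩ := Subgroup.exists_pow_mem_of_relIndex_ne_zero h1 hgm
      refine ⟨a * b, Nat.mul_pos ha hb, fun j => ?_⟩
      have e : g * (x ^ (a * b)) ^ j * g⁻¹ = ((g * x ^ a * g⁻¹) ^ b) ^ j := by
        rw [conj_pow, conj_pow, pow_mul]
      rw [e]
      exact isRat_of_mem_GLZ ((GLZ (m + 1)).pow_mem hbm.1.2 j)
    exact isRat_of_refl (by omega) hv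
      (RA_all h hiso fun e he hee => RA_isotropic hm h hgh he hee)
  intro g hg
  have hr' : Γ = Subgroup.closure {g | g ∈ Γ ∧ ∃ v, IsRefl (toR G) g v} := hr
  rw [hr'] at hg
  suffices h3 : IsRat g.val ∧ IsRat (g⁻¹).val from h3.1
  induction hg using Subgroup.closure_induction with
  | mem x hx =>
    obtain ⟨hx1, v, hv⟩ := hx
    have h3 := key x hx1 ⟨v, hv⟩
    refine ⟨h3, ?_⟩
    rw [hv.inv_eq]
    exact h3
  | one =>
    rw [inv_one, Units.val_one]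
    exact ⟨isRat_one, isRat_one⟩
  | mul x y _ _ hx hy =>
    rw [_root_.mul_inv_rev, Units.val_mul, Units.val_mul]
    exact ⟨hx.1.mul hy.1, hy.2.mul hx.2⟩
  | inv x _ hx =>
    rw [inv_inv]
    exact ⟨hx.2, hx.1⟩

end Pool.Agent.RFL
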