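import Mathlib
import Pool.Agent.Lib.MP_dcc566_gt_P1.Defs

/-!
Full sublattices of `ℤ^n` have basis matrices.
-/

set_option autoImplicit false

namespace Pool.Agent.RFL

open Matrix

variable {n : ℕ}

theorem exists_basis_matrix (Λ : Submodule ℤ (Fin n → ℤ)) {D : ℤ} (hD : D ≠ 0)
    (h : ∀ x : Fin n → ℤ, D • x ∈ Λ) :
    ∃ P : Matrix (Fin n) (Fin n) ℤ, P.det ≠ 0 ∧ ∀ x, x ∈ Λ ↔ ∃ y, x = P *ᵥ y := by
  have h1 : Module.finrank ℤ Λ ≤ n := by
    have h2 := Submodule.finrank_le Λ
    rwa [Module.finrank_fin_fun] at h2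
  have h2 : n ≤ Module.finrank ℤ Λ := by
    have h3 : Function.Injective (LinearMap.codRestrict Λ (D • LinearMap.id) h) := by
      intro x y hxy
      have h4 : D • x = D • y := congrArg (fun z : Λ => (z : Fin n → ℤ)) hxy
      exact smul_right_injective _ hD h4
    have h4 := LinearMap.finrank_le_finrank_of_injective h3
    rwa [Module.finrank_fin_fun] at h4
  have hr : Module.finrank ℤ Λ = n := le_antisymm h1 h2
  have b : Module.Basis (Fin n) ℤ Λ := Module.finBasisOfFinrankEq ℤ Λ hr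
  have hP : ∀ y : Fin n → ℤ, (Matrix.of fun i j => (b j : Fin n → ℤ) i) *ᵥ y =
      ((∑ j, y j • b j : Λ) : Fin n → ℤ) := by
    intro y
    ext i
    rw [Submodule.coe_sum, Finset.sum_apply]
    simp only [Matrix.mulVec, dotProduct, Matrix.of_apply, Submodule.coe_smul, Pi.smul_apply,
      smul_eq_mul]
    exact Finset.sum_congr rfl fun j _ => mul_comm _ _
  have hmem : ∀ x, x ∈ Λ ↔ ∃ y, x = (Matrix.of fun i j => (b j : Fin n → ℤ) i) *ᵥ y := by
    intro x
    constructor
    · intro hx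
      refine ⟨fun j => b.repr ⟨x, hx⟩ j, ?_⟩
      rw [hP, b.sum_repr]
    · rintro ⟨y, rfl⟩
      rw [hP]
      exact Subtype.property _
  refine ⟨Matrix.of fun i j => (b j : Fin n → ℤ) i, ?_, hmem⟩
  intro hdet
  have hq : ∀ j : Fin n, ∃ y, D • (Pi.single j 1 : Fin n → ℤ) =
      (Matrix.of fun i j => (b j : Fin n → ℤ) i) *ᵥ y := fun j => (hmem _).1 (h _)
  choose q hq using hq
  have hPQ : (Matrix.of fun i j => (b j : Fin n → ℤ) i) * (Matrix.of fun i j => q j i) =
      D • (1 : Matrix (Fin n) (Fin n) ℤ) := by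
    ext i j
    have h5 := congrFun (hq j) i
    rw [Matrix.smul_apply, Matrix.mul_apply]
    have h6 : ((Matrix.of fun i j => (b j : Fin n → ℤ) i) *ᵥ q j) i =
        ∑ k, (Matrix.of fun i j => (b j : Fin n → ℤ) i) i k * (Matrix.of fun i j => q j i) k j :=
      rfl
    rw [← h6, ← h5, Pi.smul_apply, Matrix.one_apply, Pi.single_apply]
  have h7 := congrArg Matrix.det hPQ
  rw [Matrix.det_mul, hdet, zero_mul, Matrix.det_smul, Matrix.det_one, mul_one] at h7
  exact pow_ne_zero _ hD h7.symm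

end Pool.Agent.RFL
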