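import Mathlib
import Pool.Agent.Lib.MP_dcc566_gt_P1.RatM
import Pool.Agent.Lib.MP_dcc566_gt_P1.LatB

/-!
An invariant lattice.
-/

set_option autoImplicit false

namespace Pool.Agent.RFL

open Matrix

variable {n : ℕ} {Γ : Subgroup (GL (Fin n) ℝ)}

private theorem InvL_den {ι : Type} [Fintype ι] (Y : ι → Matrix (Fin n) (Fin n) ℚ) :
    ∃ D : ℤ, D ≠ 0 ∧ ∀ i a b, ∃ z : ℤ, (D : ℚ) * Y i a b = z := by
  classical
  refine ⟨∏ t : ι × Fin n × Fin n, ((Y t.1 t.2.1 t.2.2).den : ℤ), ?_, ?_⟩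
  · rw [Finset.prod_ne_zero_iff]
    intro t _
    exact_mod_cast (Y t.1 t.2.1 t.2.2).den_nz
  · intro i a b
    obtain ⟨c, hc⟩ : ((Y i a b).den : ℤ) ∣
        ∏ t : ι × Fin n × Fin n, ((Y t.1 t.2.1 t.2.2).den : ℤ) :=
      Finset.dvd_prod_of_mem (fun t : ι × Fin n × Fin n => ((Y t.1 t.2.1 t.2.2).den : ℤ))
        (Finset.mem_univ (i, a, b))
    refine ⟨c * (Y i a b).num, ?_⟩
    rw [hc]
    have h1 : ((Y i a b).den : ℚ) * Y i a b = (Y i a b).num := by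
      rw [mul_comm]
      exact Rat.mul_den_eq_num (Y i a b)
    push_cast
    rw [← h1]
    ring

theorem exists_common_denominator (hrat : ∀ g ∈ Γ, IsRat g.val) (h1 : (GLZ n).relIndex Γ ≠ 0) :
    ∃ D : ℤ, D ≠ 0 ∧ ∀ g ∈ Γ, ∃ M : Matrix (Fin n) (Fin n) ℤ,
      (D : ℝ) • g.val = M.map (Int.cast : ℤ → ℝ) := by
  classical
  have hfin : Finite (Γ ⧸ (GLZ n).subgroupOf Γ) := Nat.finite_of_card_ne_zero h1
  obtain ⟨N, ⟨e⟩⟩ := Finite.exists_equiv_fin (Γ ⧸ (GLZ n).subgroupOf Γ)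
  have hY : ∀ q : Fin N, ∃ Y : Matrix (Fin n) (Fin n) ℚ,
      ((e.symm q).out : GL (Fin n) ℝ).val = Y.map (Rat.cast : ℚ → ℝ) := fun q =>
    hrat _ (e.symm q).out.2
  choose Y hY using hY
  obtain ⟨D, hD, hz⟩ := InvL_den Y
  choose z hz using hz
  refine ⟨D, hD, fun g hg => ?_⟩
  set q : Fin N := e (QuotientGroup.mk ⟨g, hg⟩) with hq
  have h2 : ((e.symm q).out)⁻¹ * (⟨g, hg⟩ : Γ) ∈ (GLZ n).subgroupOf Γ := by
    rw [← QuotientGroup.eq, hq, Equiv.symm_apply_apply, QuotientGroup.out_eq']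
  rw [Subgroup.mem_subgroupOf] at h2
  obtain ⟨M, hM⟩ := mem_GLZ.1 h2
  refine ⟨Matrix.of (fun a b => z q a b) * M.val, ?_⟩
  have h3 : g = ((e.symm q).out : GL (Fin n) ℝ) *
      ((((e.symm q).out)⁻¹ * (⟨g, hg⟩ : Γ) : Γ) : GL (Fin n) ℝ) := by
    simp
  have h4 : (D : ℝ) • ((e.symm q).out : GL (Fin n) ℝ).val =
      (Matrix.of (fun a b => z q a b) : Matrix (Fin n) (Fin n) ℤ).map (Int.cast : ℤ → ℝ) := by
    ext a b
    rw [hY q, Matrix.smul_apply, Matrix.map_apply, Matrix.map_apply, Matrix.of_apply,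
      smul_eq_mul]
    have := hz q a b
    exact_mod_cast congrArg (Rat.cast : ℚ → ℝ) this
  have h5 : g.val = ((e.symm q).out : GL (Fin n) ℝ).val * M.val.map (Int.cast : ℤ → ℝ) := by
    rw [← hM, ← Units.val_mul, ← h3]
  rw [h5, ← Matrix.smul_mul, h4]
  ext a b
  simp [Matrix.mul_apply]

private def InvL_set (Γ : Subgroup (GL (Fin n) ℝ)) (D : ℤ) : Set (Fin n → ℤ) :=
  {x | ∃ g ∈ Γ, ∃ y : Fin n → ℤ,
    (fun i => (x i : ℝ)) = ((D : ℝ) • g.val) *ᵥ (fun i => (y i : ℝ))}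

private theorem InvL_cast_mulVec (M : Matrix (Fin n) (Fin n) ℤ) (y : Fin n → ℤ) :
    (M.map (Int.cast : ℤ → ℝ)) *ᵥ (fun i => (y i : ℝ)) = fun i => ((M *ᵥ y) i : ℝ) := by
  ext i
  simp [Matrix.mulVec, dotProduct]

private theorem InvL_inv {D : ℤ} (hD : ∀ g ∈ Γ, ∃ M : Matrix (Fin n) (Fin n) ℤ,
      (D : ℝ) • g.val = M.map (Int.cast : ℤ → ℝ)) {g : GL (Fin n) ℝ} (hg : g ∈ Γ)
    {x : Fin n → ℤ} (hx : x ∈ Submodule.span ℤ (InvL_set Γ D)) :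
    ∃ w ∈ Submodule.span ℤ (InvL_set Γ D),
      g.val *ᵥ (fun i => (x i : ℝ)) = fun i => (w i : ℝ) := by
  induction hx using Submodule.span_induction with
  | mem x hx =>
    obtain ⟨g', hg', y, hy⟩ := hx
    obtain ⟨M, hM⟩ := hD (g * g') (mul_mem hg hg')
    have h1 : g.val *ᵥ (fun i => (x i : ℝ)) = ((D : ℝ) • (g * g').val) *ᵥ
        (fun i => (y i : ℝ)) := by
      rw [hy, Matrix.mulVec_mulVec, Units.val_mul, Matrix.mul_smul]
    refine ⟨M *ᵥ y, Submodule.subset_span ⟨g * g', mul_mem hg hg', y, ?_⟩, ?_⟩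
    · rw [hM, InvL_cast_mulVec]
    · rw [h1, hM, InvL_cast_mulVec]
  | zero =>
    refine ⟨0, zero_mem _, ?_⟩
    ext i
    simp [Matrix.mulVec, dotProduct]
  | add x y _ _ hx hy =>
    obtain ⟨w, hw, h1⟩ := hx
    obtain ⟨v, hv, h2⟩ := hy
    refine ⟨w + v, add_mem hw hv, ?_⟩
    have h3 : (fun i => ((x + y) i : ℝ)) = (fun i => (x i : ℝ)) + fun i => (y i : ℝ) := by
      ext i
      simp
    rw [h3, Matrix.mulVec_add, h1, h2]
    ext i
    simp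
  | smul a x _ hx =>
    obtain ⟨w, hw, h1⟩ := hx
    refine ⟨a • w, Submodule.smul_mem _ a hw, ?_⟩
    have h3 : (fun i => ((a • x) i : ℝ)) = (a : ℝ) • (fun i => (x i : ℝ)) := by
      ext i
      simp
    rw [h3, Matrix.mulVec_smul, h1]
    ext i
    simp

theorem exists_invariant_lattice (hrat : ∀ g ∈ Γ, IsRat g.val) (h1 : (GLZ n).relIndex Γ ≠ 0) :
    ∃ P : Matrix (Fin n) (Fin n) ℤ, P.det ≠ 0 ∧ ∀ g ∈ Γ, ∃ M : Matrix (Fin n) (Fin n) ℤ,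
      g.val * toR P = toR P * toR M := by
  obtain ⟨D, hD0, hD⟩ := exists_common_denominator hrat h1
  obtain ⟨P, hP, hmem⟩ := exists_basis_matrix (Submodule.span ℤ (InvL_set Γ D)) hD0 (by
    intro x
    refine Submodule.subset_span ⟨1, one_mem _, x, ?_⟩
    ext i
    simp [Matrix.smul_mulVec])
  refine ⟨P, hP, fun g hg => ?_⟩
  have h2 : ∀ j : Fin n, ∃ y : Fin n → ℤ, g.val *ᵥ (fun i => (P i j : ℝ)) =
      fun i => ((P *ᵥ y) i : ℝ) := by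
    intro j
    have h3 : (fun i => P i j) ∈ Submodule.span ℤ (InvL_set Γ D) := by
      rw [hmem]
      refine ⟨Pi.single j 1, ?_⟩
      ext i
      simp
    obtain ⟨w, hw, h4⟩ := InvL_inv hD hg h3
    obtain ⟨y, rfl⟩ := (hmem w).1 hw
    exact ⟨y, h4⟩
  choose y hy using h2
  refine ⟨Matrix.of (fun i j => y j i), ?_⟩
  ext i j
  have h5 := congrFun (hy j) i
  simp only [toR, Matrix.mul_apply, Matrix.map_apply, Matrix.of_apply]
  rw [Matrix.mulVec, dotProduct, Matrix.mulVec, dotProduct] at h5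
  rw [h5]
  push_cast
  rfl

end Pool.Agent.RFL
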