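import Mathlib
import Pool.Agent.Lib.MP_dcc566_gt_P1.GenR
import Pool.Agent.Lib.MP_dcc566_gt_P1.InvL
import Pool.Agent.Lib.MP_dcc566_gt_P1.Chg

/-!
Arithmetic reflection groups have models, and minimal models.
-/

set_option autoImplicit false

namespace Pool.Agent.RFL

open Matrix

variable {m : ℕ} {Γ : Subgroup (GL (Fin (m + 1)) ℝ)}

theorem exists_model (hm : 2 ≤ m) (hA : IsArith Γ) (hR : IsReflGroup (J m) Γ) :
    ∃ G C, Model Γ G C := by
  obtain ⟨hO, G, C, hC, hiso, hI1, hI2⟩ := hA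
  have hR' : IsReflGroup (toR G) (cj C Γ) := by
    have h1 := IsReflGroup.cj hR C
    rwa [hC] at h1
  have hrat : ∀ g ∈ cj C Γ, IsRat g.val := isRat_of_mem hm hC hiso hR' hI1 hI2
  have h1 : (GLZ (m + 1)).relIndex (cj C Γ) ≠ 0 := by
    intro h0
    apply hI1
    have hle : OZ G ≤ GLZ (m + 1) := inf_le_right
    have hd := Subgroup.relIndex_dvd_of_le_left (cj C Γ) hle
    rw [h0] at hd
    exact Nat.eq_zero_of_zero_dvd hd
  obtain ⟨P, hP, hinv⟩ := exists_invariant_lattice hrat h1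
  obtain ⟨C₁, hM⟩ := model_change (G₁ := Pᵀ * G * P) hO hC hiso hI2 hP one_pos
    (by rw [one_smul]) hinv
  exact ⟨_, C₁, hM⟩

theorem exists_minimal_model (hm : 2 ≤ m) (hA : IsArith Γ) (hR : IsReflGroup (J m) Γ) :
    ∃ G C, Model Γ G C ∧ ∀ G' C', Model Γ G' C' → G.det.natAbs ≤ G'.det.natAbs := by
  classical
  have hex : ∃ d : ℕ, ∃ G C, Model Γ G C ∧ G.det.natAbs = d := by
    obtain ⟨G, C, hM⟩ := exists_model hm hA hR
    exact ⟨_, G, C, hM, rfl⟩
  obtain ⟨G, C, hM, hd⟩ := Nat.find_spec hex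
  refine ⟨G, C, hM, ?_⟩
  intro G' C' hM'
  rw [hd]
  exact Nat.find_min' hex ⟨G', C', hM', rfl⟩

end Pool.Agent.RFL
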