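import Mathlib
import Pool.Agent.Lib.MP_dcc566_gt_P1.Chg
import Pool.Agent.Lib.MP_dcc566_gt_P1.LatB

/-!
The p-ranks of the discriminant group of a minimal model.
-/

set_option autoImplicit false

namespace Pool.Agent.RFL

open Matrix

private theorem RkP_cast {n p : ℕ} (G : Matrix (Fin n) (Fin n) ℤ) (x : Fin n → ℤ) (i : Fin n) :
    (((G *ᵥ x) i : ℤ) : ZMod p) = ((G.map (Int.cast : ℤ → ZMod p)) *ᵥ fun j => (x j : ZMod p)) i := by
  simp only [mulVec, dotProduct, Int.cast_sum, Int.cast_mul, Matrix.map_apply]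

variable {m : ℕ} {Γ : Subgroup (GL (Fin (m + 1)) ℝ)}
  {G : Matrix (Fin (m + 1)) (Fin (m + 1)) ℤ} {C : GL (Fin (m + 1)) ℝ}

theorem natAbs_det_eq_pow_rank {n : ℕ} {p : ℕ} [Fact p.Prime] (G P : Matrix (Fin n) (Fin n) ℤ)
    (hP : P.det ≠ 0)
    (h : ∀ x : Fin n → ℤ, (∀ i, (p : ℤ) ∣ (G *ᵥ x) i) ↔ ∃ y, x = P *ᵥ y) :
    P.det.natAbs = p ^ (G.map (Int.cast : ℤ → ZMod p)).rank := by
  classical
  have hinj : Function.Injective (toLin' P) := by
    rw [← LinearMap.ker_eq_bot, Matrix.ker_toLin'_eq_bot_iff]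
    intro v hv
    exact Matrix.eq_zero_of_mulVec_eq_zero hP hv
  obtain ⟨N, hN⟩ : ∃ N : Submodule ℤ (Fin n → ℤ), N = LinearMap.range (toLin' P) := ⟨_, rfl⟩
  subst hN
  have h1 := Submodule.natAbs_det_equiv (LinearMap.range (toLin' P))
    (LinearEquiv.ofInjective (toLin' P) hinj)
  have h2 : (LinearMap.range (toLin' P)).subtype ∘ₗ AddMonoidHom.toIntLinearMap
      ((LinearEquiv.ofInjective (toLin' P) hinj : (Fin n → ℤ) ≃ₗ[ℤ] LinearMap.range (toLin' P)) :
        (Fin n → ℤ) →+ LinearMap.range (toLin' P)) = toLin' P := by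
    ext x
    rfl
  rw [h2, LinearMap.det_toLin'] at h1
  rw [h1]
  -- the map to the vector space over `ZMod p`
  let φ : (Fin n → ℤ) →+ (Fin n → ZMod p) :=
    { toFun := fun x i => (((G *ᵥ x) i : ℤ) : ZMod p)
      map_zero' := by
        funext i
        simp
      map_add' := fun x y => by
        funext i
        simp [mulVec_add] }
  let Φ : (Fin n → ℤ) →ₗ[ℤ] (Fin n → ZMod p) := φ.toIntLinearMap
  have hker : LinearMap.ker Φ = LinearMap.range (toLin' P) := by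
    ext x
    rw [LinearMap.mem_ker, LinearMap.mem_range]
    have h3 : Φ x = 0 ↔ ∀ i, (p : ℤ) ∣ (G *ᵥ x) i := by
      rw [funext_iff]
      refine forall_congr' fun i => ?_
      exact ZMod.intCast_zmod_eq_zero_iff_dvd _ _
    rw [h3, h]
    constructor
    · rintro ⟨y, rfl⟩
      exact ⟨y, toLin'_apply P y⟩
    · rintro ⟨y, rfl⟩
      exact ⟨y, toLin'_apply P y⟩
  rw [← hker, Nat.card_congr (LinearMap.quotKerEquivRange Φ).toEquiv]
  have hr : (LinearMap.range Φ : Set (Fin n → ZMod p)) =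
      LinearMap.range (G.map (Int.cast : ℤ → ZMod p)).mulVecLin := by
    ext v
    constructor
    · rintro ⟨x, rfl⟩
      refine ⟨fun j => (x j : ZMod p), ?_⟩
      funext i
      exact (RkP_cast G x i).symm
    · rintro ⟨y, rfl⟩
      have hs : ∀ j, ∃ z : ℤ, (z : ZMod p) = y j := fun j => ZMod.intCast_surjective (y j)
      choose x hx using hs
      refine ⟨x, ?_⟩
      funext i
      refine (RkP_cast G x i).trans ?_
      have h4 : (fun j => (x j : ZMod p)) = y := funext hx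
      rw [h4]
      rfl
  have h5 : Nat.card (LinearMap.range Φ) =
      Nat.card (LinearMap.range (G.map (Int.cast : ℤ → ZMod p)).mulVecLin) :=
    Nat.card_congr (Equiv.setCongr hr)
  rw [h5, Module.natCard_eq_pow_finrank (K := ZMod p), Nat.card_zmod]
  rfl

private theorem RkP_toR_mul {n : ℕ} (A B : Matrix (Fin n) (Fin n) ℤ) :
    toR (A * B) = toR A * toR B := by
  unfold toR
  exact Matrix.map_mul (f := Int.castRingHom ℝ)

private theorem RkP_toR_inj {n : ℕ} {A B : Matrix (Fin n) (Fin n) ℤ} (h : toR A = toR B) :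
    A = B := by
  ext i j
  have h1 := congrFun (congrFun h i) j
  unfold toR at h1
  rw [Matrix.map_apply, Matrix.map_apply] at h1
  exact_mod_cast h1

private theorem RkP_toR_tr {n : ℕ} (A : Matrix (Fin n) (Fin n) ℤ) : toR Aᵀ = (toR A)ᵀ := by
  unfold toR
  rw [Matrix.transpose_map]

theorem rank_of_minimal (hO : Γ ≤ OR (J m)) (h : Model Γ G C)
    (hmin : ∀ G' C', Model Γ G' C' → G.det.natAbs ≤ G'.det.natAbs) (p : ℕ) [Fact p.Prime] :
    m + 1 ≤ 2 * (G.map (Int.cast : ℤ → ZMod p)).rank := by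
  classical
  have hp : p.Prime := Fact.out
  obtain ⟨hC, hiso, hle, hI⟩ := h
  have hdet : G.det ≠ 0 := det_ne_zero_of_model hC
  let Λ : Submodule ℤ (Fin (m + 1) → ℤ) :=
    { carrier := {x | ∀ i, (p : ℤ) ∣ (G *ᵥ x) i}
      add_mem' := fun {x y} hx hy i => by
        rw [mulVec_add]
        exact dvd_add (hx i) (hy i)
      zero_mem' := fun i => by
        rw [mulVec_zero]
        exact dvd_zero _
      smul_mem' := fun c x hx i => by
        rw [mulVec_smul]
        exact Dvd.dvd.mul_left (hx i) c }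
  have hmem : ∀ x, x ∈ Λ ↔ ∀ i, (p : ℤ) ∣ (G *ᵥ x) i := fun x => Iff.rfl
  have hp0 : (p : ℤ) ≠ 0 := by exact_mod_cast hp.ne_zero
  obtain ⟨P, hP, hPΛ⟩ := exists_basis_matrix Λ hp0 (fun x => by
    rw [hmem]
    intro i
    rw [mulVec_smul]
    exact dvd_mul_right _ _)
  have hPdet := natAbs_det_eq_pow_rank (p := p) G P hP (fun x => (hmem x).symm.trans (hPΛ x))
  -- the divisibility of the columns
  have hcol : ∀ i j, (p : ℤ) ∣ (G * P) i j := by
    intro i j
    have h1 : P *ᵥ Pi.single j 1 ∈ Λ := (hPΛ _).2 ⟨_, rfl⟩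
    have h2 := (hmem _).1 h1 i
    rw [mulVec_mulVec, mulVec_single_one] at h2
    exact h2
  choose Q hQ using hcol
  have hGP : G * P = (p : ℤ) • (Matrix.of Q) := by
    ext i j
    rw [hQ, Matrix.smul_apply, Matrix.of_apply, smul_eq_mul]
  obtain ⟨G₁, hG₁⟩ : ∃ G₁, G₁ = Pᵀ * Matrix.of Q := ⟨_, rfl⟩
  have hG1 : Pᵀ * G * P = (p : ℤ) • G₁ := by
    rw [Matrix.mul_assoc, hGP, Matrix.mul_smul, hG₁]
  have hpr : (0 : ℝ) < (p : ℝ)⁻¹ := by
    have : (0 : ℝ) < p := by exact_mod_cast hp.pos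
    positivity
  have hGr : toR G₁ = (p : ℝ)⁻¹ • toR (Pᵀ * G * P) := by
    rw [hG1]
    ext i j
    have hpn : (p : ℝ) ≠ 0 := by exact_mod_cast hp.ne_zero
    unfold toR
    rw [Matrix.smul_apply, Matrix.map_apply, Matrix.map_apply, Matrix.smul_apply, smul_eq_mul,
      smul_eq_mul]
    push_cast
    rw [← mul_assoc, inv_mul_cancel₀ hpn, one_mul]
  have hinv : ∀ g ∈ cj C Γ, ∃ M : Matrix (Fin (m + 1)) (Fin (m + 1)) ℤ,
      g.val * toR P = toR P * toR M := by
    intro g hg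
    obtain ⟨hg1, hg2⟩ := hle hg
    obtain ⟨M, hM⟩ := mem_GLZ.1 hg2
    have hM' : g.val = toR M.val := hM
    have h1 := mem_OR.1 hg1
    rw [hM', ← RkP_toR_tr, ← RkP_toR_mul, ← RkP_toR_mul] at h1
    have h2 : M.valᵀ * G * M.val = G := RkP_toR_inj h1
    have h3 : M⁻¹.valᵀ * M.valᵀ = 1 := by
      rw [← transpose_mul, ← Units.val_mul, mul_inv_cancel, Units.val_one, transpose_one]
    have h4 : G * M.val = M⁻¹.valᵀ * G := by
      calc G * M.val = (M⁻¹.valᵀ * M.valᵀ) * (G * M.val) := by rw [h3, Matrix.one_mul]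
        _ = M⁻¹.valᵀ * (M.valᵀ * G * M.val) := by simp only [Matrix.mul_assoc]
        _ = M⁻¹.valᵀ * G := by rw [h2]
    have h5 : ∀ x ∈ Λ, M.val *ᵥ x ∈ Λ := by
      intro x hx
      rw [hmem] at hx ⊢
      intro i
      rw [mulVec_mulVec, h4, ← mulVec_mulVec]
      unfold mulVec dotProduct
      exact Finset.dvd_sum fun j _ => Dvd.dvd.mul_left (hx j) _
    have h6 : ∀ j, ∃ y, M.val *ᵥ (P *ᵥ Pi.single j 1) = P *ᵥ y := fun j =>
      (hPΛ _).1 (h5 _ ((hPΛ _).2 ⟨_, rfl⟩))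
    choose y hy using h6
    refine ⟨(Matrix.of y)ᵀ, ?_⟩
    rw [hM', ← RkP_toR_mul, ← RkP_toR_mul]
    congr 1
    ext i j
    have h7 := congrFun (hy j) i
    rw [mulVec_mulVec, mulVec_single_one] at h7
    rw [show (M.val * P) i j = (P *ᵥ y j) i from h7]
    rfl
  obtain ⟨C₁, hC₁⟩ := model_change hO hC hiso hI hP hpr hGr hinv
  have h1 := hmin G₁ C₁ hC₁
  have h2 : (p : ℤ) ^ (m + 1) * G₁.det = P.det ^ 2 * G.det := by
    have h3 := congrArg Matrix.det hG1
    rw [det_mul, det_mul, det_transpose, det_smul, Fintype.card_fin] at h3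
    rw [← h3]
    ring
  have h3 : p ^ (m + 1) * G₁.det.natAbs = P.det.natAbs ^ 2 * G.det.natAbs := by
    have h4 := congrArg Int.natAbs h2
    rw [Int.natAbs_mul, Int.natAbs_mul, Int.natAbs_pow, Int.natAbs_pow, Int.natAbs_natCast] at h4
    exact h4
  have h4 : 0 < G.det.natAbs := Int.natAbs_pos.2 hdet
  have h5 : p ^ (m + 1) ≤ P.det.natAbs ^ 2 := by
    have h6 : p ^ (m + 1) * G.det.natAbs ≤ P.det.natAbs ^ 2 * G.det.natAbs := by
      rw [← h3]
      exact Nat.mul_le_mul_left _ h1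
    exact Nat.le_of_mul_le_mul_right h6 h4
  rw [hPdet, ← pow_mul] at h5
  have h6 := (Nat.pow_le_pow_iff_right hp.one_lt).1 h5
  omega

end Pool.Agent.RFL
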