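import Mathlib
import Pool.Agent.Lib.MP_dcc566_gt_P1.Chg
import Pool.Agent.Lib.MP_dcc566_gt_P1.LatB

/-!
The discriminant group of a minimal model has square-free exponent.
-/

set_option autoImplicit false

namespace Pool.Agent.RFL

open Matrix

variable {m : ℕ} {Γ : Subgroup (GL (Fin (m + 1)) ℝ)}
  {G : Matrix (Fin (m + 1)) (Fin (m + 1)) ℤ} {C : GL (Fin (m + 1)) ℝ}

private def SqF_L {n : ℕ} (G : Matrix (Fin n) (Fin n) ℤ) (p : ℕ) : Submodule ℤ (Fin n → ℤ) where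
  carrier := {x | ∃ a w : Fin n → ℤ, x = (p : ℤ) • a + w ∧ ∀ i, (p : ℤ) ^ 2 ∣ (G *ᵥ w) i}
  add_mem' := by
    rintro x y ⟨a, w, rfl, hw⟩ ⟨b, u, rfl, hu⟩
    refine ⟨a + b, w + u, ?_, fun i => ?_⟩
    · rw [smul_add]; abel
    · rw [mulVec_add, Pi.add_apply]
      exact dvd_add (hw i) (hu i)
  zero_mem' := ⟨0, 0, by rw [smul_zero, add_zero], fun i => by
    rw [mulVec_zero, Pi.zero_apply]; exact dvd_zero _⟩
  smul_mem' := by
    rintro c x ⟨a, w, rfl, hw⟩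
    refine ⟨c • a, c • w, ?_, fun i => ?_⟩
    · rw [smul_add, smul_comm]
    · rw [mulVec_smul, Pi.smul_apply, smul_eq_mul]
      exact Dvd.dvd.mul_left (hw i) c

private theorem SqF_mem {n : ℕ} {G : Matrix (Fin n) (Fin n) ℤ} {p : ℕ} {x : Fin n → ℤ} :
    x ∈ SqF_L G p ↔ ∃ a w : Fin n → ℤ, x = (p : ℤ) • a + w ∧ ∀ i, (p : ℤ) ^ 2 ∣ (G *ᵥ w) i :=
  Iff.rfl

private theorem SqF_dvd_dot {n : ℕ} {d : ℤ} (a u : Fin n → ℤ) (h : ∀ i, d ∣ u i) :
    d ∣ a ⬝ᵥ u :=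
  Finset.dvd_sum fun i _ => Dvd.dvd.mul_left (h i) (a i)

private theorem SqF_symm {n : ℕ} {G : Matrix (Fin n) (Fin n) ℤ} (hG : G.IsSymm)
    (x y : Fin n → ℤ) : x ⬝ᵥ (G *ᵥ y) = y ⬝ᵥ (G *ᵥ x) := by
  rw [dotProduct_mulVec, dotProduct_comm, ← mulVec_transpose, hG.eq]

private theorem SqF_pair {n : ℕ} {G : Matrix (Fin n) (Fin n) ℤ} (hG : G.IsSymm) {p : ℕ}
    {x y : Fin n → ℤ} (hx : x ∈ SqF_L G p) (hy : y ∈ SqF_L G p) :
    (p : ℤ) ^ 2 ∣ x ⬝ᵥ (G *ᵥ y) := by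
  obtain ⟨a, w, rfl, hw⟩ := hx
  obtain ⟨b, u, rfl, hu⟩ := hy
  rw [mulVec_add, mulVec_smul, add_dotProduct, dotProduct_add, dotProduct_add, smul_dotProduct,
    smul_dotProduct, dotProduct_smul, dotProduct_smul, SqF_symm hG w b]
  simp only [smul_eq_mul]
  refine dvd_add (dvd_add ?_ ?_) (dvd_add ?_ ?_)
  · rw [← mul_assoc, pow_two]
    exact Dvd.intro _ rfl
  · exact Dvd.dvd.mul_left (SqF_dvd_dot _ _ hu) _
  · exact Dvd.dvd.mul_left (SqF_dvd_dot _ _ hw) _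
  · exact SqF_dvd_dot _ _ hu

private theorem SqF_toR_mul {n : ℕ} (A B : Matrix (Fin n) (Fin n) ℤ) :
    toR (A * B) = toR A * toR B := by
  unfold toR
  exact Matrix.map_mul (f := Int.castRingHom ℝ)

private theorem SqF_toR_inj {n : ℕ} {A B : Matrix (Fin n) (Fin n) ℤ} (h : toR A = toR B) :
    A = B := by
  ext i j
  have h1 := congrFun (congrFun h i) j
  rw [toR, toR, Matrix.map_apply, Matrix.map_apply] at h1
  exact_mod_cast h1

/-- The columns. -/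
private theorem SqF_cols {n : ℕ} {P A : Matrix (Fin n) (Fin n) ℤ}
    (h : ∀ j, ∃ y, A *ᵥ Pi.single j 1 = P *ᵥ y) : ∃ Q : Matrix (Fin n) (Fin n) ℤ, A = P * Q := by
  choose y hy using h
  refine ⟨Matrix.of fun i j => y j i, ?_⟩
  ext i j
  have h1 := congrFun (hy j) i
  rw [mulVec_single_one] at h1
  rw [Matrix.mul_apply]
  exact h1

theorem squarefree_of_minimal (hO : Γ ≤ OR (J m)) (h : Model Γ G C)
    (hmin : ∀ G' C', Model Γ G' C' → G.det.natAbs ≤ G'.det.natAbs) {p : ℕ} (hp : p.Prime)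
    (v : Fin (m + 1) → ℤ) (hv : ∀ i, (p : ℤ) ^ 2 ∣ (G *ᵥ v) i) : ∀ i, (p : ℤ) ∣ v i := by
  obtain ⟨hM, hiso, hle, hidx⟩ := h
  have hsym := isSymm_of_model hM
  have hdet := det_ne_zero_of_model hM
  have hp0 : (p : ℤ) ≠ 0 := by exact_mod_cast hp.ne_zero
  have hpD : ∀ x : Fin (m + 1) → ℤ, (p : ℤ) • x ∈ SqF_L G p := fun x =>
    ⟨x, 0, by rw [add_zero], fun i => by rw [mulVec_zero, Pi.zero_apply]; exact dvd_zero _⟩
  obtain ⟨P, hP, hΛ⟩ := exists_basis_matrix (SqF_L G p) hp0 hpD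
  have hPmem : ∀ y, P *ᵥ y ∈ SqF_L G p := fun y => (hΛ _).2 ⟨y, rfl⟩
  -- the new Gram matrix
  have hdiv : ∀ i j, (p : ℤ) ^ 2 ∣ (Pᵀ * G * P) i j := by
    intro i j
    have e1 : (Pᵀ * G * P) i j =
        (P *ᵥ Pi.single i 1) ⬝ᵥ (G *ᵥ (P *ᵥ Pi.single j 1)) := by
      rw [mulVec_mulVec, mulVec_single_one, mulVec_single_one, Matrix.mul_assoc,
        Matrix.mul_apply]
      rfl
    rw [e1]
    exact SqF_pair hsym (hPmem _) (hPmem _)
  choose G₁ hG₁ using hdiv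
  have hG1 : Pᵀ * G * P = ((p : ℤ) ^ 2) • (Matrix.of G₁) := by
    ext i j
    rw [hG₁ i j, Matrix.smul_apply, Matrix.of_apply, smul_eq_mul]
  have hpR : (0 : ℝ) < 1 / (p : ℝ) ^ 2 := by
    have : (0 : ℝ) < p := by exact_mod_cast hp.pos
    positivity
  have hG2 : toR (Matrix.of G₁) = (1 / (p : ℝ) ^ 2) • toR (Pᵀ * G * P) := by
    rw [hG1]
    ext i j
    have h1 : (p : ℝ) ≠ 0 := by exact_mod_cast hp.ne_zero
    simp only [toR, Matrix.map_apply, Matrix.smul_apply, Matrix.of_apply, smul_eq_mul]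
    push_cast
    field_simp
  -- the invariance
  have hinv : ∀ g ∈ cj C Γ, ∃ M : Matrix (Fin (m + 1)) (Fin (m + 1)) ℤ,
      g.val * toR P = toR P * toR M := by
    intro g hg
    obtain ⟨hgO, hgZ⟩ := hle hg
    obtain ⟨M, hMg⟩ := mem_GLZ.1 hgZ
    have h1 : g.valᵀ * toR G * g.val = toR G := mem_OR.1 hgO
    have h2 : M.valᵀ * G * M.val = G := by
      apply SqF_toR_inj
      rw [SqF_toR_mul, SqF_toR_mul]
      have h3 : toR M.val = g.val := hMg.symm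
      have h4 : toR M.valᵀ = g.valᵀ := by
        rw [hMg]
        rfl
      rw [h3, h4, h1]
    have h5 : G * M.val = (M⁻¹).valᵀ * G := by
      have h6 : (M⁻¹).valᵀ * M.valᵀ = 1 := by
        rw [← transpose_mul, ← Units.val_mul, mul_inv_cancel, Units.val_one, transpose_one]
      calc G * M.val = ((M⁻¹).valᵀ * M.valᵀ) * (G * M.val) := by rw [h6, Matrix.one_mul]
        _ = (M⁻¹).valᵀ * (M.valᵀ * G * M.val) := by simp only [Matrix.mul_assoc]
        _ = (M⁻¹).valᵀ * G := by rw [h2]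
    have h7 : ∀ x ∈ SqF_L G p, M.val *ᵥ x ∈ SqF_L G p := by
      rintro x ⟨a, w, rfl, hw⟩
      refine ⟨M.val *ᵥ a, M.val *ᵥ w, by rw [mulVec_add, mulVec_smul], fun i => ?_⟩
      rw [mulVec_mulVec, h5, ← mulVec_mulVec]
      exact SqF_dvd_dot _ _ hw
    obtain ⟨Q, hQ⟩ := SqF_cols (P := P) (A := M.val * P) fun j => by
      rw [← mulVec_mulVec]
      exact (hΛ _).1 (h7 _ (hPmem _))
    refine ⟨Q, ?_⟩
    rw [← SqF_toR_mul, ← hQ, SqF_toR_mul]
    rw [hMg]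
    rfl
  obtain ⟨C₁, hC₁⟩ := model_change hO hM hiso hidx hP hpR hG2 hinv
  have hmin1 := hmin _ _ hC₁
  -- the determinants
  have hd1 : P.det ^ 2 * G.det = ((p : ℤ) ^ 2) ^ (m + 1) * (Matrix.of G₁).det := by
    have h1 := congrArg Matrix.det hG1
    rw [det_mul, det_mul, det_transpose, det_smul, Fintype.card_fin] at h1
    rw [← h1]
    ring
  have hd2 : P.det.natAbs ^ 2 * G.det.natAbs =
      (p ^ (m + 1)) ^ 2 * (Matrix.of G₁).det.natAbs := by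
    have h1 := congrArg Int.natAbs hd1
    rw [Int.natAbs_mul, Int.natAbs_mul, Int.natAbs_pow, Int.natAbs_pow, Int.natAbs_pow,
      Int.natAbs_natCast] at h1
    rw [h1]
    ring
  have hG0 : 0 < G.det.natAbs := Int.natAbs_pos.2 hdet
  have hd3 : p ^ (m + 1) ≤ P.det.natAbs := by
    have h1 : (p ^ (m + 1)) ^ 2 * G.det.natAbs ≤ P.det.natAbs ^ 2 * G.det.natAbs := by
      rw [hd2]
      exact Nat.mul_le_mul_left _ hmin1
    have h2 := Nat.le_of_mul_le_mul_right h1 hG0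
    exact (Nat.pow_le_pow_iff_left (two_ne_zero)).1 h2
  obtain ⟨Q, hQ⟩ := SqF_cols (P := P) (A := (p : ℤ) • (1 : Matrix (Fin (m + 1)) (Fin (m + 1)) ℤ))
    fun j => by
      rw [smul_mulVec, one_mulVec]
      exact (hΛ _).1 (hpD _)
  have hd4 : p ^ (m + 1) = P.det.natAbs * Q.det.natAbs := by
    have h1 := congrArg Matrix.det hQ
    rw [det_smul, det_one, mul_one, Fintype.card_fin, det_mul] at h1
    have h2 := congrArg Int.natAbs h1
    rwa [Int.natAbs_mul, Int.natAbs_pow, Int.natAbs_natCast] at h2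
  have hQ1 : Q.det.natAbs = 1 := by
    have h0 : 0 < p ^ (m + 1) := pow_pos hp.pos _
    have h1 : Q.det.natAbs ≠ 0 := by
      intro h2
      rw [h2, mul_zero] at hd4
      omega
    have h3 : P.det.natAbs * Q.det.natAbs ≤ P.det.natAbs * 1 := by
      rw [← hd4, mul_one]
      exact hd3
    have h4 : 0 < P.det.natAbs := lt_of_lt_of_le h0 hd3
    have h5 := Nat.le_of_mul_le_mul_left h3 h4
    omega
  have hQu : IsUnit Q := (Matrix.isUnit_iff_isUnit_det Q).2 (Int.isUnit_iff_natAbs_eq.2 hQ1)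
  obtain ⟨U, hU⟩ := hQu
  have hPQ : P = (p : ℤ) • U⁻¹.val := by
    have h1 : Q * U⁻¹.val = 1 := by
      rw [← hU, ← Units.val_mul, mul_inv_cancel, Units.val_one]
    calc P = P * (Q * U⁻¹.val) := by rw [h1, Matrix.mul_one]
      _ = (P * Q) * U⁻¹.val := by rw [Matrix.mul_assoc]
      _ = (p : ℤ) • U⁻¹.val := by rw [← hQ, smul_mul_assoc, Matrix.one_mul]
  obtain ⟨y, hy⟩ := (hΛ v).1 ⟨0, v, by rw [smul_zero, zero_add], hv⟩
  intro i
  rw [hy, hPQ, smul_mulVec, Pi.smul_apply, smul_eq_mul]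
  exact Dvd.intro _ rfl

end Pool.Agent.RFL
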