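import Mathlib
import Pool.Agent.Lib.MP_dcc566_gt_P1.ExM
import Pool.Agent.Lib.MP_dcc566_gt_P1.SqF
import Pool.Agent.Lib.MP_dcc566_gt_P1.RkP
import Pool.Agent.Lib.MP_dcc566_gt_P1.Bri

/-!
From maximal arithmetic reflection groups to strongly square-free reflective lattices.
-/

set_option autoImplicit false

namespace Pool.Agent.RFL

open Matrix

/-- Part I.  A maximal non-uniform arithmetic reflection group of hyperbolic `m`-space, `m ≥ 2`, is
the reflection group of a reflective lattice whose discriminant group is a direct sum of elementary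
abelian `p`-groups of ranks at most `(m + 1) / 2`; the lattice has minimal determinant among all
integral models. -/
theorem exists_strongly_squarefree {m : ℕ} (hm : 2 ≤ m) {Γ : Subgroup (GL (Fin (m + 1)) ℝ)}
    (h : IsMaxRefl Γ) :
    ∃ (G : Matrix (Fin (m + 1)) (Fin (m + 1)) ℤ) (C : GL (Fin (m + 1)) ℝ),
      Model Γ G C ∧ cj C Γ = W G ∧ (W G).relIndex (OZ G) ≠ 0 ∧
      _root_.MP_dcc566_gt.Reflective G ∧
      (∀ p : ℕ, p.Prime → ∀ v : Fin (m + 1) → ℤ, (∀ i, (p : ℤ) ^ 2 ∣ (G *ᵥ v) i) →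
        ∀ i, (p : ℤ) ∣ v i) ∧
      (∀ p : ℕ, p.Prime → m + 1 ≤ 2 * (G.map (Int.cast : ℤ → ZMod p)).rank) ∧
      ∀ G' C', Model Γ G' C' → G.det.natAbs ≤ G'.det.natAbs := by
  obtain ⟨G, C, hM, hmin⟩ := exists_minimal_model hm h.1 h.2.1
  obtain ⟨hW, hI⟩ := eq_W_of_max h hM
  have hO : Γ ≤ OR (J m) := h.1.1
  refine ⟨G, C, hM, hW, hI, reflective_of_relIndex (isSymm_of_model hM.1) hI, ?_, ?_, hmin⟩
  · intro p hp v hv
    exact squarefree_of_minimal hO hM hmin hp v hv
  · intro p hp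
    haveI : Fact p.Prime := ⟨hp⟩
    exact rank_of_minimal hO hM hmin p

end Pool.Agent.RFL
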